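import Pool.Agent.H74.PL.Def

/-! # [H74 PL BEL] number of partitions

PROOF. Induction on the set, for the partitions of an arbitrary finite set `s`. A partition `x` of `insert a s` gives the partition
`y` of `s` (`Finpartition.avoid`) and the set `A` of the elements of `s` in the part of `a`; `A` is empty (then `y` has one part less) or a
part of `y` (then `y` has as many parts as `x`), and `x` is determined by `y` and `A`. So `L(n+1, m+1) ≤ (m+1) L(n, m+1) + L(n, m)`, the
recursion of `Nat.stirlingSecond`. `card_le_bell`: sum over `m ≤ n` (`card_parts_le_card`). -/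

set_option autoImplicit false

namespace Pool.Agent.H74.PL

open Finset

section

variable {α : Type} [DecidableEq α] {s : Finset α} {a : α}

private theorem bel_ins (ha : a ∉ s) : insert a s \ {a} = s := by
  ext i
  simp only [mem_sdiff, mem_insert, mem_singleton]
  constructor
  · rintro ⟨h1 | h1, h2⟩
    · exact absurd h1 h2
    · exact h1
  · intro h1
    exact ⟨Or.inr h1, fun h2 => ha (h2 ▸ h1)⟩

/-- the partition of `s` -/
private def bel_rs (ha : a ∉ s) (x : Finpartition (insert a s)) : Finpartition s :=
  (x.avoid {a}).copy (bel_ins ha)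

/-- the other elements in the part of `a` -/
private def bel_A (x : Finpartition (insert a s)) : Finset α := (x.part a).erase a

private theorem bel_part (x : Finpartition (insert a s)) : x.part a ∈ x.parts := x.part_mem.2 (mem_insert_self a s)

private theorem bel_mem (x : Finpartition (insert a s)) : a ∈ x.part a := x.mem_part_self.2 (mem_insert_self a s)

private theorem bel_ne (x : Finpartition (insert a s)) {d : Finset α} (hd : d ∈ x.parts) (hn : d ≠ x.part a) : a ∉ d :=
  fun h => hn (x.part_eq_of_mem hd h).symm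

private theorem bel_parts (ha : a ∉ s) (x : Finpartition (insert a s)) (c : Finset α) :
    c ∈ (bel_rs ha x).parts ↔ (c ∈ x.parts ∧ c ≠ x.part a) ∨ (c = bel_A x ∧ bel_A x ≠ ∅) := by
  have h0 : c ∈ (bel_rs ha x).parts ↔ ∃ d ∈ x.parts, ¬ d ≤ {a} ∧ d \ {a} = c := x.mem_avoid
  rw [h0]
  constructor
  · rintro ⟨d, hd, h1, rfl⟩
    by_cases h2 : d = x.part a
    · right
      subst h2
      rw [sdiff_singleton_eq_erase]
      refine ⟨rfl, fun h3 => h1 ?_⟩
      intro i hi
      by_contra h4
      have h5 : i ∈ bel_A x := mem_erase.2 ⟨fun h6 => h4 (mem_singleton.2 h6), hi⟩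
      rw [h3] at h5
      exact absurd h5 (notMem_empty i)
    · left
      have h3 := bel_ne x hd h2
      have h4 : d \ {a} = d := by
        rw [sdiff_singleton_eq_erase]
        exact erase_eq_of_notMem h3
      rw [h4]
      exact ⟨hd, h2⟩
  · rintro (⟨h1, h2⟩ | ⟨rfl, h2⟩)
    · have h3 := bel_ne x h1 h2
      refine ⟨c, h1, fun h4 => ?_, ?_⟩
      · obtain ⟨i, hi⟩ := x.nonempty_of_mem_parts h1
        have h5 := mem_singleton.1 (h4 hi)
        exact h3 (h5 ▸ hi)
      · rw [sdiff_singleton_eq_erase]
        exact erase_eq_of_notMem h3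
    · refine ⟨x.part a, bel_part x, fun h3 => ?_, sdiff_singleton_eq_erase _ _⟩
      obtain ⟨i, hi⟩ := nonempty_iff_ne_empty.2 h2
      obtain ⟨h4, h5⟩ := mem_erase.1 hi
      exact h4 (mem_singleton.1 (h3 h5))

private theorem bel_notin (x : Finpartition (insert a s)) {c : Finset α} (hc : c ∈ x.parts) (hn : c ≠ x.part a)
    (h : c = bel_A x) (h0 : bel_A x ≠ ∅) : False := by
  obtain ⟨i, hi⟩ := nonempty_iff_ne_empty.2 h0
  have h1 : i ∈ c := h ▸ hi
  exact hn (x.eq_of_mem_parts hc (bel_part x) h1 (mem_erase.1 hi).2)

private theorem bel_inj (ha : a ∉ s) {x x' : Finpartition (insert a s)} (h1 : bel_rs ha x = bel_rs ha x')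
    (h2 : bel_A x = bel_A x') : x = x' := by
  have h3 : x.part a = x'.part a := by
    have h4 := insert_erase (bel_mem x)
    have h5 := insert_erase (bel_mem x')
    rw [← h4, ← h5]
    exact congrArg _ h2
  have key : ∀ (u v : Finpartition (insert a s)), bel_rs ha u = bel_rs ha v → bel_A u = bel_A v →
      u.part a = v.part a → ∀ c ∈ u.parts, c ∈ v.parts := by
    intro u v g1 g2 g3 c hc
    by_cases h : c = u.part a
    · rw [h, g3]
      exact bel_part v
    · have g4 : c ∈ (bel_rs ha u).parts := (bel_parts ha u c).2 (Or.inl ⟨hc, h⟩)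
      rw [g1] at g4
      rcases (bel_parts ha v c).1 g4 with g5 | ⟨g5, g6⟩
      · exact g5.1
      · rw [← g2] at g5 g6
        exact (bel_notin u hc h g5 g6).elim
  ext c
  exact ⟨key x x' h1 h2 h3 c, key x' x h1.symm h2.symm h3.symm c⟩

private theorem bel_card (ha : a ∉ s) (x : Finpartition (insert a s)) :
    (bel_A x = ∅ ∧ #(bel_rs ha x).parts + 1 = #x.parts) ∨
      (bel_A x ∈ (bel_rs ha x).parts ∧ #(bel_rs ha x).parts = #x.parts) := by
  have h0 : #(x.parts.erase (x.part a)) + 1 = #x.parts := card_erase_add_one (bel_part x)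
  by_cases h : bel_A x = ∅
  · left
    refine ⟨h, ?_⟩
    have h1 : (bel_rs ha x).parts = x.parts.erase (x.part a) := by
      ext c
      rw [bel_parts, mem_erase]
      constructor
      · rintro (⟨h2, h3⟩ | ⟨-, h3⟩)
        · exact ⟨h3, h2⟩
        · exact absurd h h3
      · rintro ⟨h2, h3⟩
        exact Or.inl ⟨h3, h2⟩
    rw [h1, h0]
  · right
    refine ⟨(bel_parts ha x _).2 (Or.inr ⟨rfl, h⟩), ?_⟩
    have h1 : (bel_rs ha x).parts = insert (bel_A x) (x.parts.erase (x.part a)) := by
      ext c
      rw [bel_parts, mem_insert, mem_erase]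
      constructor
      · rintro (⟨h2, h3⟩ | ⟨h2, -⟩)
        · exact Or.inr ⟨h3, h2⟩
        · exact Or.inl h2
      · rintro (h2 | ⟨h2, h3⟩)
        · exact Or.inr ⟨h2, h⟩
        · exact Or.inl ⟨h3, h2⟩
    rw [h1, card_insert_of_notMem, h0]
    intro h2
    obtain ⟨h3, h4⟩ := mem_erase.1 h2
    exact bel_notin x h4 h3 rfl h

end

private theorem bel_gen {α : Type} [DecidableEq α] (s : Finset α) :
    ∀ m : ℕ, #{x : Finpartition s | #x.parts = m} ≤ Nat.stirlingSecond #s m := by
  induction s using Finset.induction_on with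
  | empty =>
    intro m
    rcases m with _ | m
    · rw [card_empty, Nat.stirlingSecond_zero]
      refine card_le_one.2 fun x _ y _ => ?_
      exact Subsingleton.elim (α := Finpartition (⊥ : Finset α)) x y
    · rw [card_empty, Nat.stirlingSecond_zero_succ, Nat.le_zero, card_eq_zero, filter_eq_empty_iff]
      intro x _ h
      have h1 := x.card_parts_le_card
      rw [card_empty] at h1
      omega
  | insert a s ha ih =>
    intro m
    rw [card_insert_of_notMem ha]
    rcases m with _ | m
    · rw [Nat.stirlingSecond_succ_zero, Nat.le_zero, card_eq_zero, filter_eq_empty_iff]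
      intro x _ h
      exact absurd (bel_part x) (by rw [card_eq_zero.1 h]; exact notMem_empty _)
    · rw [Nat.stirlingSecond_succ_succ]
      have h1 : #{x : Finpartition (insert a s) | #x.parts = m + 1} ≤
          #((({y : Finpartition s | #y.parts = m + 1} : Finset (Finpartition s)).biUnion fun y => y.parts.image fun A => (y, A)) ∪
            ({y : Finpartition s | #y.parts = m} : Finset (Finpartition s)).image fun y => (y, (∅ : Finset α))) := by
        refine card_le_card_of_injOn (fun x => (bel_rs ha x, bel_A x)) (fun x hx => ?_) (fun x _ x' _ h => ?_)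
        · have hx1 : #x.parts = m + 1 := (mem_filter.1 (mem_coe.1 hx)).2
          refine mem_coe.2 (mem_union.2 ?_)
          rcases bel_card ha x with ⟨h2, h3⟩ | ⟨h2, h3⟩
          · right
            refine mem_image.2 ⟨bel_rs ha x, mem_filter.2 ⟨mem_univ _, by omega⟩, ?_⟩
            show (bel_rs ha x, (∅ : Finset α)) = (bel_rs ha x, bel_A x)
            rw [h2]
          · left
            exact mem_biUnion.2 ⟨bel_rs ha x, mem_filter.2 ⟨mem_univ _, by omega⟩, mem_image.2 ⟨bel_A x, h2, rfl⟩⟩
        · exact bel_inj ha (Prod.ext_iff.1 h).1 (Prod.ext_iff.1 h).2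
      refine h1.trans ((card_union_le _ _).trans (Nat.add_le_add ?_ (card_image_le.trans (ih m))))
      refine (card_biUnion_le_card_mul _ _ (m + 1) fun y hy => card_image_le.trans (mem_filter.1 hy).2.le).trans ?_
      rw [mul_comm]
      exact Nat.mul_le_mul_left _ (ih (m + 1))

theorem card_level_le (n m : ℕ) : #{x : Pn n | #x.parts = m} ≤ Nat.stirlingSecond n m := by
  have h := bel_gen (univ : Finset (Fin n)) m
  rwa [card_univ, Fintype.card_fin] at h

theorem card_le_bell (n : ℕ) : Fintype.card (Pn n) ≤ bell n := by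
  have h1 : Fintype.card (Pn n) = ∑ m ∈ range (n + 1), #{x : Pn n | #x.parts = m} := by
    rw [← card_univ]
    refine card_eq_sum_card_fiberwise fun x _ => ?_
    refine mem_coe.2 (mem_range.2 ?_)
    have h2 := x.card_parts_le_card
    rw [card_univ, Fintype.card_fin] at h2
    omega
  rw [h1, bell]
  exact sum_le_sum fun m _ => card_level_le n m

end Pool.Agent.H74.PL
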