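import Pool.Agent.H74.PL.Cod

/-! # [H74 PL BRG] bridge between types and codes -/

set_option autoImplicit false

namespace Pool.Agent.H74.PL

open Finset

/-- good types: parts positive, sum at most 9 -/
structure Good (s : Multiset ℕ) : Prop where
  pos : ∀ b ∈ s, 1 ≤ b
  sum : s.sum ≤ 9

theorem Good.le {s : Multiset ℕ} (h : Good s) {b : ℕ} (hb : b ∈ s) : b ≤ 9 :=
  (Multiset.le_sum_of_mem hb).trans h.sum

theorem Good.count_le {s : Multiset ℕ} (h : Good s) (b : ℕ) : s.count b ≤ 9 := by
  have h1 : s.card ≤ s.sum := by
    have := Multiset.card_nsmul_le_sum (s := s) (a := 1) h.pos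
    simpa using this
  exact (Multiset.count_le_card b s).trans (h1.trans h.sum)

theorem Good.mem_Icc {s : Multiset ℕ} (h : Good s) {b : ℕ} (hb : b ∈ s) : b ∈ Finset.Icc 1 9 :=
  Finset.mem_Icc.2 ⟨h.pos b hb, h.le hb⟩

/-- sum over a good multiset -/
theorem Good.sum_map {s : Multiset ℕ} (h : Good s) (f : ℕ → ℝ) :
    (s.map f).sum = ∑ b ∈ Finset.Icc 1 9, (s.count b : ℝ) * f b := by
  rw [Finset.sum_multiset_map_count]
  simp only [nsmul_eq_mul]
  refine Finset.sum_subset (fun b hb => h.mem_Icc (Multiset.mem_toFinset.1 hb)) ?_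
  intro b _ hb
  rw [Multiset.mem_toFinset] at hb
  rw [Multiset.count_eq_zero_of_notMem hb]
  simp

theorem Good.cd_eq {s : Multiset ℕ} (h : Good s) :
    cd s = ∑ b ∈ Finset.Icc 1 9, s.count b * 10 ^ (b - 1) := by
  unfold cd
  rw [Finset.sum_multiset_map_count]
  simp only [smul_eq_mul]
  refine Finset.sum_subset (fun b hb => h.mem_Icc (Multiset.mem_toFinset.1 hb)) ?_
  intro b _ hb
  rw [Multiset.mem_toFinset] at hb
  rw [Multiset.count_eq_zero_of_notMem hb]
  simp

theorem Icc_eq : Finset.Icc 1 9 = ({1, 2, 3, 4, 5, 6, 7, 8, 9} : Finset ℕ) := by decide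

theorem Good.dg_eq {s : Multiset ℕ} (h : Good s) {b : ℕ} (hb : b ∈ Finset.Icc 1 9) :
    dg (cd s) b = s.count b := by
  have h1 := h.cd_eq
  rw [Icc_eq] at h1 hb
  have hc := fun c => h.count_le c
  have c1 := hc 1
  have c2 := hc 2
  have c3 := hc 3
  have c4 := hc 4
  have c5 := hc 5
  have c6 := hc 6
  have c7 := hc 7
  have c8 := hc 8
  have c9 := hc 9
  rw [Finset.sum_insert (by decide), Finset.sum_insert (by decide), Finset.sum_insert (by decide),
    Finset.sum_insert (by decide), Finset.sum_insert (by decide), Finset.sum_insert (by decide),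
    Finset.sum_insert (by decide), Finset.sum_insert (by decide), Finset.sum_singleton] at h1
  norm_num at h1
  unfold dg
  rw [h1]
  simp only [Finset.mem_insert, Finset.mem_singleton] at hb
  rcases hb with rfl | rfl | rfl | rfl | rfl | rfl | rfl | rfl | rfl <;> norm_num <;> omega

theorem sm_cons (p : ℕ × ℕ) (l : List (ℕ × ℕ)) (g : ℕ → ℝ) : sm (p :: l) g = p.1 * g p.2 + sm l g := by
  simp [sm]

theorem sm_append (l k : List (ℕ × ℕ)) (g : ℕ → ℝ) : sm (l ++ k) g = sm l g + sm k g := by
  simp [sm]

theorem sm_flatMap (l : List ℕ) (f : ℕ → List (ℕ × ℕ)) (g : ℕ → ℝ) :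
    sm (l.flatMap f) g = (l.map (fun b => sm (f b) g)).sum := by
  induction l with
  | nil => simp [sm]
  | cons a l ih => rw [List.flatMap_cons, sm_append, ih, List.map_cons, List.sum_cons]

theorem sum_range' (f : ℕ → ℝ) : ((List.range' 1 9).map f).sum = ∑ b ∈ Finset.Icc 1 9, f b := by
  rw [Icc_eq]
  rw [Finset.sum_insert (by decide), Finset.sum_insert (by decide), Finset.sum_insert (by decide),
    Finset.sum_insert (by decide), Finset.sum_insert (by decide), Finset.sum_insert (by decide),
    Finset.sum_insert (by decide), Finset.sum_insert (by decide), Finset.sum_singleton]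
  simp [List.range']

theorem sum_lrange (f : ℕ → ℝ) (k : ℕ) : ((List.range k).map f).sum = ∑ j ∈ range k, f j := by
  induction k with
  | zero => simp
  | succ k ih => rw [List.range_succ, List.map_append, List.sum_append, ih, Finset.sum_range_succ]; simp

theorem cd_add (s t : Multiset ℕ) : cd (s + t) = cd s + cd t := by
  simp [cd]

theorem dn_code {s : Multiset ℕ} (h : Good s) (g : ℕ → ℝ) :
    Dn s (fun t => g (cd t)) = sm (DnL (cd s)) g := by
  unfold Dn DnL
  rw [sm_flatMap, sum_range']
  have h1 : (s.map (fun b => ∑ j ∈ range (b - 1), ((b - 1).choose (j + 1) : ℝ) *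
      g (cd (s.erase b + {j + 1, b - (j + 1)})))).sum =
      (s.map (fun b => ∑ j ∈ range (b - 1), ((b - 1).choose (j + 1) : ℝ) *
        g (cd s - 10 ^ (b - 1) + (10 ^ j + 10 ^ (b - j - 2))))).sum := by
    refine congrArg Multiset.sum (Multiset.map_congr rfl fun b hb => ?_)
    refine Finset.sum_congr rfl fun j hj => ?_
    congr 2
    have h2 : cd s = cd (s.erase b) + 10 ^ (b - 1) := by
      conv_lhs => rw [← Multiset.cons_erase hb]
      simp [cd, add_comm]
    rw [cd_add, h2, Nat.add_sub_cancel]
    congr 1
  rw [h1, h.sum_map]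
  refine Finset.sum_congr rfl fun b hb => ?_
  rw [h.dg_eq hb]
  split_ifs with h0
  · rw [h0]
    simp [sm]
  · rw [Finset.mul_sum]
    rw [sm, List.map_map, sum_lrange]
    refine Finset.sum_congr rfl fun j _ => ?_
    simp only [Function.comp_apply]
    push_cast
    ring

/-- sum over ordered pairs minus the diagonal -/
theorem pairs (s : Multiset ℕ) (h : Multiset ℕ → ℝ) :
    2 * ((Multiset.powersetCard 2 s).map h).sum =
      (s.map (fun b => (s.map (fun c => h {b, c})).sum)).sum - (s.map (fun b => h {b, b})).sum := by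
  induction s using Multiset.induction_on with
  | empty => simp
  | cons a s ih =>
    rw [Multiset.powersetCard_cons, Multiset.map_add, Multiset.sum_add, mul_add, ih, Multiset.map_map]
    have h1 : (Multiset.powersetCard 1 s) = s.map (fun b => {b}) := by
      exact Multiset.powersetCard_one s
    rw [h1, Multiset.map_map]
    simp only [Multiset.map_cons, Multiset.sum_cons, Function.comp_def]
    have h2 : ∀ b, (a ::ₘ ({b} : Multiset ℕ)) = {a, b} := fun b => rfl
    simp only [h2]
    rw [Multiset.sum_map_add]
    have h3 : (s.map (fun b => h {b, a})).sum = (s.map (fun b => h {a, b})).sum := by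
      refine congrArg Multiset.sum (Multiset.map_congr rfl fun b _ => ?_)
      rw [Multiset.pair_comm]
    rw [h3]
    ring

theorem up_code {s : Multiset ℕ} (h : Good s) (g : ℕ → ℝ) :
    Up s (fun t => g (cd t)) = sm (UpL (cd s)) g / 2 := by
  rw [eq_div_iff (by norm_num), mul_comm]
  unfold Up
  rw [pairs s (fun t => g (cd (s - t + {t.sum})))]
  unfold UpL
  rw [sm_flatMap, sum_range', h.sum_map, h.sum_map, ← Finset.sum_sub_distrib]
  refine Finset.sum_congr rfl fun b hb => ?_
  rw [h.sum_map, h.dg_eq hb]
  split_ifs with h0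
  · rw [h0]
    simp [sm]
  · rw [sm, List.map_map]
    have hs := sum_range' ((fun p : ℕ × ℕ => (p.1 : ℝ) * g p.2) ∘ fun c =>
      (s.count b * (dg (cd s) c - if b = c then 1 else 0), cd s - (10 ^ (b - 1) + 10 ^ (c - 1)) + 10 ^ (b + c - 1)))
    rw [hs]
    have h5 : (s.count b : ℝ) * g (cd (s - {b, b} + {({b, b} : Multiset ℕ).sum})) =
        ∑ c ∈ Finset.Icc 1 9, (s.count b : ℝ) * ((if b = c then 1 else 0) * g (cd (s - {b, c} + {({b, c} : Multiset ℕ).sum}))) := by
      rw [Finset.sum_eq_single b]
      · simp
      · intro c _ hc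
        rw [if_neg (Ne.symm hc)]
        simp
      · intro hc
        exact absurd hb hc
    rw [h5, Finset.mul_sum, ← Finset.sum_sub_distrib]
    refine Finset.sum_congr rfl fun c hc => ?_
    simp only [Function.comp_apply]
    rw [h.dg_eq hc]
    by_cases hbc : b = c
    · subst hbc
      rw [if_pos rfl, if_pos rfl]
      by_cases h1 : s.count b = 1
      · rw [h1]
        simp
      · have h2 : ({b, b} : Multiset ℕ) ≤ s := by
          rw [Multiset.le_iff_count]
          intro a
          by_cases ha : a = b
          · subst ha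
            simp
            omega
          · simp [Multiset.count_cons, ha]
        have h3 : cd (s - {b, b} + {({b, b} : Multiset ℕ).sum}) =
            cd s - (10 ^ (b - 1) + 10 ^ (b - 1)) + 10 ^ (b + b - 1) := by
          have h4 : s = s - {b, b} + {b, b} := (Multiset.sub_add_cancel h2).symm
          have h6 : cd s = cd (s - {b, b}) + (10 ^ (b - 1) + 10 ^ (b - 1)) := by
            conv_lhs => rw [h4]
            rw [cd_add]
            simp [cd]
          rw [cd_add, h6, Nat.add_sub_cancel]
          simp [cd]
        rw [h3]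
        rw [Nat.cast_mul, Nat.cast_sub (by omega)]
        push_cast
        ring
    · rw [if_neg hbc, if_neg hbc]
      by_cases h1 : s.count c = 0
      · rw [h1]
        simp
      · have h2 : ({b, c} : Multiset ℕ) ≤ s := by
          rw [Multiset.le_iff_count]
          intro a
          by_cases ha : a = b
          · subst ha
            simp [Multiset.count_cons, hbc]
            omega
          · by_cases ha2 : a = c
            · subst ha2
              simp [Multiset.count_cons, ha]
              omega
            · simp [Multiset.count_cons, ha, ha2]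
        have h3 : cd (s - {b, c} + {({b, c} : Multiset ℕ).sum}) =
            cd s - (10 ^ (b - 1) + 10 ^ (c - 1)) + 10 ^ (b + c - 1) := by
          have h4 : s = s - {b, c} + {b, c} := (Multiset.sub_add_cancel h2).symm
          have h6 : cd s = cd (s - {b, c}) + (10 ^ (b - 1) + 10 ^ (c - 1)) := by
            conv_lhs => rw [h4]
            rw [cd_add]
            simp [cd]
          rw [cd_add, h6, Nat.add_sub_cancel]
          simp [cd]
        rw [h3]
        push_cast
        simp
        ring

end Pool.Agent.H74.PL
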