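import Pool.Agent.H74.PL.Spl

/-! # [H74 PL CNT] chain counts in the partition lattice

PROOF. `graded`: `card_of_covBy`, `⊥` has `n` parts, `⊤` one. `up_eq`: the right side satisfies the recursion: `Up s (const) = (m choose 2) const`, `up_unique` (Star.Power).
`dn_eq`: with `E(s) = (n-m)!/2^(n-m) ∏ b!`: splitting `b` in `i + (b-i)` divides `∏ b!` by `b!/(i! (b-i)!)`, so the sum over `i = j+1` of `(b-1).choose i * i! (b-i)!/b! = (b-i)/b` is `(b-1)/2`,
and `∑ (b-1) = n - m`: total `(n-m-1)!/2^(n-m-1) * (n-m)/2 ∏ b! = E(s)`; `dn_unique`. -/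

set_option autoImplicit false

namespace Pool.Agent.H74.PL

open Finset Pool.Agent.H37.Star

private theorem univ_ne {n : ℕ} (hn : 1 ≤ n) : (univ : Finset (Fin n)) ≠ ⊥ := by
  rw [Finset.bot_eq_empty]
  exact Finset.nonempty_iff_ne_empty.1 ⟨⟨0, hn⟩, mem_univ _⟩

private theorem card_le {n : ℕ} (x : Pn n) : #x.parts ≤ n := by
  have h := x.card_parts_le_card
  rwa [card_univ, Fintype.card_fin] at h

private theorem card_pos' {n : ℕ} (hn : 1 ≤ n) (x : Pn n) : 1 ≤ #x.parts :=
  Finset.card_pos.2 (x.parts_nonempty (univ_ne hn))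

private theorem card_bot' {n : ℕ} : #(⊥ : Pn n).parts = n := by
  rw [Finpartition.card_bot, card_univ, Fintype.card_fin]

private theorem card_top' {n : ℕ} (hn : 1 ≤ n) : #(⊤ : Pn n).parts = 1 := by
  apply le_antisymm
  · have h := Finset.card_le_card (Finpartition.parts_top_subset (univ : Finset (Fin n)))
    rwa [card_singleton] at h
  · exact card_pos' hn _

theorem graded {n : ℕ} (hn : 1 ≤ n) : IsGradedBy (Pn n) (fun x => n - #x.parts) (n - 1) := by
  refine ⟨?_, ?_, ?_⟩
  · intro x hx
    rw [isMin_iff_eq_bot] at hx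
    show n - #x.parts = 0
    rw [hx, card_bot', Nat.sub_self]
  · intro x hx
    rw [isMax_iff_eq_top] at hx
    show n - #x.parts = n - 1
    rw [hx, card_top' hn]
  · intro x y h
    have h1 := card_of_covBy h
    have h2 := card_le x
    show n - #y.parts = n - #x.parts + 1
    omega

private theorem card_tp {n : ℕ} (x : Pn n) : Multiset.card (tp x) = #x.parts := by
  rw [tp, Multiset.card_map]
  rfl

open Classical in
private theorem card_up {n : ℕ} (x : Pn n) :
    ((univ.filter (fun y : Pn n => x ⋖ y)).card : ℝ) = (#x.parts).choose 2 := by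
  have h := up_sum x (fun _ => 1)
  rw [Finset.sum_const, nsmul_eq_mul, mul_one] at h
  rw [h, Up, Multiset.map_const', Multiset.sum_replicate, Multiset.card_powersetCard, card_tp,
    nsmul_eq_mul, mul_one]

theorem up_eq {n : ℕ} (hn : 1 ≤ n) (x : Pn n) :
    (up x : ℝ) = ((#x.parts).factorial : ℝ) * ((#x.parts - 1).factorial : ℝ) / 2 ^ (#x.parts - 1) := by
  classical
  have key := up_unique (graded hn)
    (fun x : Pn n => ((#x.parts).factorial : ℝ) / 2 ^ (#x.parts - 1)) ?_ ?_ x
  · rw [key]
    have h1 := card_le x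
    have h2 := card_pos' hn x
    have h3 : n - 1 - (n - #x.parts) = #x.parts - 1 := by omega
    rw [h3]
    ring
  · intro x hx
    rw [isMax_iff_eq_top] at hx
    rw [hx, card_top' hn]
    norm_num
  · intro x hx
    have h1 := card_le x
    have h2 := card_pos' hn x
    have h3 : n - 1 - (n - #x.parts) = #x.parts - 1 := by omega
    have h4 : ∀ y ∈ univ.filter (fun y : Pn n => x ⋖ y),
        ((#y.parts).factorial : ℝ) / 2 ^ (#y.parts - 1) =
          ((#x.parts - 1).factorial : ℝ) / 2 ^ (#x.parts - 2) := by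
      intro y hy
      have h5 := card_of_covBy (mem_filter.1 hy).2
      have h6 : #y.parts = #x.parts - 1 := by omega
      have h7 : #y.parts - 1 = #x.parts - 2 := by omega
      rw [h7, h6]
    rw [Finset.sum_congr rfl h4, Finset.sum_const, nsmul_eq_mul, card_up, h3]
    obtain ⟨m, hm⟩ : ∃ m, #x.parts = m + 1 := ⟨#x.parts - 1, by omega⟩
    rw [hm]
    rcases Nat.eq_zero_or_pos m with h0 | h0
    · rw [h0]
      norm_num
    · obtain ⟨k, rfl⟩ : ∃ k, m = k + 1 := ⟨m - 1, by omega⟩
      have e1 : k + 1 + 1 - 1 = k + 1 := rfl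
      have e2 : k + 1 + 1 - 2 = k := rfl
      have e3 : ((k + 1 + 1).choose 2 : ℝ) = ((k : ℝ) + 2) * ((k : ℝ) + 1) / 2 := by
        rw [Nat.cast_choose_two]
        push_cast
        ring
      rw [e1, e2, e3, Nat.factorial_succ (k + 1)]
      push_cast
      field_simp
      ring

private theorem gauss (c : ℕ) : ∑ j ∈ range c, ((c - j : ℕ) : ℝ) = c * (c + 1) / 2 := by
  induction c with
  | zero => simp
  | succ c ih =>
    rw [Finset.sum_range_succ']
    have h : ∀ j ∈ range c, ((c + 1 - (j + 1) : ℕ) : ℝ) = ((c - j : ℕ) : ℝ) := fun j _ => by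
      rw [Nat.add_sub_add_right]
    rw [Finset.sum_congr rfl h, ih]
    push_cast
    ring

private theorem inner_sum {b : ℕ} (hb : 1 ≤ b) :
    ∑ j ∈ range (b - 1), ((b - 1).choose (j + 1) : ℝ) *
      (((j + 1).factorial : ℝ) * ((b - (j + 1)).factorial : ℝ)) =
      (b.factorial : ℝ) * ((b : ℝ) - 1) / 2 := by
  obtain ⟨c, rfl⟩ : ∃ c, b = c + 1 := ⟨b - 1, by omega⟩
  rw [Nat.add_sub_cancel]
  have h : ∀ j ∈ range c, ((c.choose (j + 1) : ℕ) : ℝ) *
      (((j + 1).factorial : ℝ) * ((c + 1 - (j + 1)).factorial : ℝ)) =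
      (c.factorial : ℝ) * ((c - j : ℕ) : ℝ) := by
    intro j hj
    rw [mem_range] at hj
    have h1 := Nat.choose_mul_factorial_mul_factorial (n := c) (k := j + 1) hj
    have h2 : c + 1 - (j + 1) = (c - (j + 1)) + 1 := by omega
    have h3 : c - j = (c - (j + 1)) + 1 := by omega
    rw [h2, Nat.factorial_succ (c - (j + 1)), h3, ← h1]
    push_cast
    ring
  rw [Finset.sum_congr rfl h, ← Finset.mul_sum, gauss, Nat.factorial_succ]
  push_cast
  ring

/-- the product of the factorials over a power of two -/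
private noncomputable def G (n : ℕ) (s : Multiset ℕ) : ℝ :=
  (s.map (fun b => (b.factorial : ℝ))).prod / 2 ^ (n - Multiset.card s)

private theorem dn_G {n : ℕ} (s : Multiset ℕ) (hs : s.sum = n) (h1 : ∀ b ∈ s, 1 ≤ b)
    (hc : Multiset.card s < n) :
    Dn s (G n) = ((n : ℝ) - Multiset.card s) * G n s := by
  obtain ⟨e, he⟩ : ∃ e, n - Multiset.card s = e + 1 := ⟨n - Multiset.card s - 1, by omega⟩
  have key : ∀ b ∈ s, (∑ j ∈ range (b - 1), ((b - 1).choose (j + 1) : ℝ) *
      G n (s.erase b + {j + 1, b - (j + 1)})) = G n s * ((b : ℝ) - 1) := by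
    intro b hb
    have hb1 := h1 b hb
    have hP : (s.map (fun b => (b.factorial : ℝ))).prod =
        (b.factorial : ℝ) * ((s.erase b).map (fun b => (b.factorial : ℝ))).prod := by
      have h := congrArg (fun t : Multiset ℕ => (Multiset.map (fun b : ℕ => (b.factorial : ℝ)) t).prod)
        (Multiset.cons_erase hb).symm
      simp only [Multiset.map_cons, Multiset.prod_cons] at h
      exact h
    have hcard : ∀ i j : ℕ, n - Multiset.card (s.erase b + {i, j}) = e := by
      intro i j
      rw [Multiset.card_add, Multiset.card_erase_of_mem hb]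
      have h2 : Multiset.card ({i, j} : Multiset ℕ) = 2 := rfl
      have h3 : 0 < Multiset.card s := Multiset.card_pos_iff_exists_mem.2 ⟨b, hb⟩
      rw [h2]
      have h4 : (Multiset.card s).pred = Multiset.card s - 1 := rfl
      omega
    have h2 : ∀ j ∈ range (b - 1), ((b - 1).choose (j + 1) : ℝ) *
        G n (s.erase b + {j + 1, b - (j + 1)}) =
        (((b - 1).choose (j + 1) : ℝ) * (((j + 1).factorial : ℝ) * ((b - (j + 1)).factorial : ℝ))) *
          (((s.erase b).map (fun b => (b.factorial : ℝ))).prod / 2 ^ e) := by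
      intro j _
      rw [G, hcard, Multiset.map_add, Multiset.prod_add]
      have h3 : (Multiset.map (fun b => (b.factorial : ℝ)) ({j + 1, b - (j + 1)} : Multiset ℕ)).prod =
          ((j + 1).factorial : ℝ) * ((b - (j + 1)).factorial : ℝ) := by
        rw [Multiset.insert_eq_cons, Multiset.map_cons, Multiset.map_singleton, Multiset.prod_cons,
          Multiset.prod_singleton]
      rw [h3]
      ring
    rw [Finset.sum_congr rfl h2, ← Finset.sum_mul, inner_sum hb1, G, hP, he, pow_succ]
    ring
  rw [Dn, Multiset.map_congr rfl key]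
  have h2 : (s.map (fun b : ℕ => G n s * ((b : ℝ) - 1))).sum =
      G n s * (s.map (fun b : ℕ => ((b : ℝ) - 1))).sum := Multiset.sum_map_mul_left
  rw [h2]
  have h3 : (s.map (fun b : ℕ => ((b : ℝ) - 1))).sum = (n : ℝ) - Multiset.card s := by
    rw [← hs]
    have h4 : ∀ t : Multiset ℕ, (t.map (fun b : ℕ => ((b : ℝ) - 1))).sum =
        ((t.sum : ℕ) : ℝ) - Multiset.card t := by
      intro t
      induction t using Multiset.induction_on with
      | empty => simp
      | cons a t ih =>
        rw [Multiset.map_cons, Multiset.sum_cons, ih, Multiset.sum_cons, Multiset.card_cons]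
        push_cast
        ring
    exact h4 s
  rw [h3]
  ring

private theorem sum_tp {n : ℕ} (x : Pn n) : (tp x).sum = n := by
  have h := x.sum_card_parts
  rw [card_univ, Fintype.card_fin] at h
  exact h

private theorem pos_tp {n : ℕ} (x : Pn n) : ∀ b ∈ tp x, 1 ≤ b := by
  intro b hb
  rw [tp, Multiset.mem_map] at hb
  obtain ⟨B, hB, rfl⟩ := hb
  exact Finset.card_pos.2 (x.nonempty_of_mem_parts hB)

theorem dn_eq {n : ℕ} (hn : 1 ≤ n) (x : Pn n) :
    (dn x : ℝ) = ((n - #x.parts).factorial : ℝ) * (∏ B ∈ x.parts, ((#B).factorial : ℝ)) / 2 ^ (n - #x.parts) := by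
  have key := dn_unique (graded hn) (fun x : Pn n => G n (tp x)) ?_ ?_ x
  · rw [key, mul_div_assoc]
    show ((n - #x.parts).factorial : ℝ) * G n (tp x) = _
    rw [G, card_tp, tp, Multiset.map_map]
    rfl
  · intro x hx
    rw [isMin_iff_eq_bot] at hx
    have h1 : Multiset.card (tp x) = n := by rw [card_tp, hx, card_bot']
    show G n (tp x) = 1
    have h2 : ∀ b ∈ tp x, b = 1 := by
      have h3 : tp x = Multiset.replicate n 1 := by
        rw [tp, hx, Finpartition.parts_bot, Finset.map_val, Multiset.map_map]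
        have h4 : (Multiset.map (Finset.card ∘ (⟨singleton, singleton_injective⟩ : Fin n ↪ Finset (Fin n)))
            (univ : Finset (Fin n)).val) = Multiset.map (fun _ => 1) (univ : Finset (Fin n)).val :=
          Multiset.map_congr rfl fun a _ => rfl
        rw [h4, Multiset.map_const']
        congr 1
        exact (Finset.card_univ (α := Fin n)).trans (Fintype.card_fin n)
      rw [h3]
      intro b hb
      exact Multiset.eq_of_mem_replicate hb
    rw [G, h1, Nat.sub_self, pow_zero, div_one]
    refine Multiset.prod_eq_one fun r hr => ?_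
    rw [Multiset.mem_map] at hr
    obtain ⟨b, hb, rfl⟩ := hr
    rw [h2 b hb]
    norm_num
  · intro x hx
    have hlt : #x.parts < n := by
      by_contra hcon
      refine hx ((graded hn).isMin (x := x) ?_)
      show n - #x.parts = 0
      omega
    rw [dn_sum x (G n), dn_G (tp x) (sum_tp x) (pos_tp x) (by rw [card_tp]; exact hlt), card_tp,
      Nat.cast_sub hlt.le]

theorem numMaxChains_eq {n : ℕ} (hn : 1 ≤ n) :
    (numMaxChains (Pn n) : ℝ) = (n.factorial : ℝ) * ((n - 1).factorial : ℝ) / 2 ^ (n - 1) := by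
  have h1 : numMaxChains (Pn n) = dn (⊥ : Pn n) * up (⊥ : Pn n) := by
    rw [← split_card]
    unfold numMaxChains
    congr 1
    ext C
    refine ⟨fun h => ⟨h, ?_⟩, fun h => h.1⟩
    exact h.bot_mem
  rw [h1, dn_min isMin_bot, one_mul, up_eq hn, card_bot']

end Pool.Agent.H74.PL
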