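import Pool.Agent.H74.PL.Def

/-! # [H74 PL COD] types coded by numbers (digits = multiplicities), for n ≤ 9 -/

set_option autoImplicit false

namespace Pool.Agent.H74.PL

open Finset

/-- code of a type -/
def cd (s : Multiset ℕ) : ℕ := (s.map (fun b => 10 ^ (b - 1))).sum

/-- digit: the multiplicity of `b` -/
def dg (a b : ℕ) : ℕ := a / 10 ^ (b - 1) % 10

/-- lower covers: coefficient and code -/
def DnL (a : ℕ) : List (ℕ × ℕ) :=
  (List.range' 1 9).flatMap (fun b => if dg a b = 0 then [] else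
    (List.range (b - 1)).map (fun j => (dg a b * (b - 1).choose (j + 1), a - 10 ^ (b - 1) + (10 ^ j + 10 ^ (b - j - 2)))))

/-- upper covers: coefficient (twice the multiplicity) and code -/
def UpL (a : ℕ) : List (ℕ × ℕ) :=
  (List.range' 1 9).flatMap (fun b => if dg a b = 0 then [] else (List.range' 1 9).map (fun c =>
    (dg a b * (dg a c - if b = c then 1 else 0), a - (10 ^ (b - 1) + 10 ^ (c - 1)) + 10 ^ (b + c - 1))))

/-- weighted sum -/
def smN (l : List (ℕ × ℕ)) (g : ℕ → ℕ) : ℕ := (l.map (fun p => p.1 * g p.2)).sum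

/-- weighted sum -/
def sm (l : List (ℕ × ℕ)) (g : ℕ → ℝ) : ℝ := (l.map (fun p => (p.1 : ℝ) * g p.2)).sum

/-- look up in an association list -/
def look (l : List (ℕ × ℕ)) (a : ℕ) : ℕ := l.rec 0 (fun p _ r => bif Nat.beq p.1 a then p.2 else r)

/-- look up a row -/
def lookR (l : List (ℕ × List (ℕ × ℕ))) (a : ℕ) : List (ℕ × ℕ) := l.rec [] (fun p _ r => bif Nat.beq p.1 a then p.2 else r)

/-- the certificate as a function -/
def Rf (tab : List (ℕ × List (ℕ × ℕ))) (a m : ℕ) : ℕ := look (lookR tab a) m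

/-- the check of a certificate: `tab` the rows, `cls` the class sizes, `pr` the predecessors -/
def chk (n : ℕ) (tab : List (ℕ × List (ℕ × ℕ))) (cls pr : List (ℕ × ℕ)) : Bool :=
  let T := tab.map Prod.fst
  T.contains n && Nat.beq (look cls n) 1 &&
  (T.all fun a => (UpL a).all fun p => Nat.beq p.1 0 || T.contains p.2) &&
  (T.all fun a => T.all fun m => Nat.beq m a || Nat.ble (Rf tab a m) (smN (DnL a) (fun ν => Rf tab ν m))) &&
  (T.all fun a => Nat.beq a n || Nat.beq (T.map (Rf tab a)).sum (smN (DnL a) (fun ν => (T.map (Rf tab ν)).sum))) &&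
  (T.all fun m => Nat.beq m n || (Nat.blt 0 (smN (DnL m) (fun ν => bif Nat.beq ν (look pr m) then 1 else 0)) &&
    Nat.beq (2 * (look cls m * smN (DnL m) (fun ν => bif Nat.beq ν (look pr m) then 1 else 0)))
      (look cls (look pr m) * smN (UpL (look pr m)) (fun ν => bif Nat.beq ν m then 1 else 0)))) &&
  (T.all fun m => Nat.beq (Rf tab (10 ^ (n - 1)) m) (Rf tab (10 ^ (n - 1)) (10 ^ (n - 1)) * look cls m))

end Pool.Agent.H74.PL
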