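import Pool.Agent.H37.Star.Main2
import Pool.Agent.H21.Hold.Main

/-! # [H74 PL DEF] THE LATTICE OF SET PARTITIONS HAS PROPERTY (∗) IFF n ≤ 9 (MP_ef39db_co), helper74

`Π_n = Finpartition (univ : Finset (Fin n))`, order = refinement (finer ≤ coarser). The type `tp x` is the multiset of the sizes of the parts.
`Up s g` = sum of `g` over the types of the upper covers of a partition of type `s` (merge two parts); `Dn s g` = the same for lower covers
(split a part of size `b` in two: `(b-1).choose (j+1)` ways with sizes `j+1, b-(j+1)`, `j+1` = size of the half which does not contain a fixed element). -/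

set_option autoImplicit false

namespace Pool.Agent.H74.PL

open Finset

/-- the lattice of partitions of `{0,...,n-1}` -/
abbrev Pn (n : ℕ) : Type := Finpartition (univ : Finset (Fin n))

/-- type of a partition -/
def tp {n : ℕ} (x : Pn n) : Multiset ℕ := x.parts.val.map Finset.card

/-- sum over the upper covers -/
noncomputable def Up (s : Multiset ℕ) (g : Multiset ℕ → ℝ) : ℝ :=
  ((Multiset.powersetCard 2 s).map (fun t => g (s - t + {t.sum}))).sum

/-- sum over the lower covers -/
noncomputable def Dn (s : Multiset ℕ) (g : Multiset ℕ → ℝ) : ℝ :=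
  (s.map (fun b => ∑ j ∈ range (b - 1), ((b - 1).choose (j + 1) : ℝ) * g (s.erase b + {j + 1, b - (j + 1)}))).sum

/-- Bell numbers -/
def bell (n : ℕ) : ℕ := ∑ k ∈ range (n + 1), Nat.stirlingSecond n k

end Pool.Agent.H74.PL
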