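import Pool.Agent.H74.PL.Def

/-! # [H74 PL LA1] the choice of the number m of parts for n ≥ 400

PROOF. `stirling_le`: `m^n = ∑_j (m choose j) j! S(n,j)` by induction on `n` (or: functions onto `j` of the `m` points; it is enough to prove `≥`), so the term `j = m` is at most `m^n`.
`choice`: `m` = a maximiser of `m^n/m!` (reals) on `1 ≤ m ≤ n`, so `bell n ≤ n m^n/m!` (`stirling_le`; `S(n,0) = 0`). Then `(1+1/m)^n ≤ m+1` (if `m < n` compare with `m+1`; `m = n` is impossible: comparing `n` with `n-1` is no contradiction, so show directly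
`(1+1/m)^n ≤ m+1` from `(1+1/n)^n < 3 ≤ n+1`). Hence: `m ≥ 89` (for `m ≤ 88`, `(1+1/88)^400 > 91`; monotone in `n`, `m`), `8 n ≤ m²` (`(1+1/m)^m ≥ 2`, so `2^(n/m) ≤ m+1` with floor; `m ≥ 89`), and from the maximality against `m-1`: `(m/(m-1))^n ≥ m`,
so `n ≥ (m-1) log m` (`log(1+u) ≤ u`), `log 89 > 4.48` (`2.7182818286^4.48 < 89`; or prove `(m/(m-1))^(4m) < m` for `m ≥ 89` directly: `(1+1/(m-1))^(4m) ≤ exp(4m/(m-1)) ≤ exp(4.05) < 58`), so `4 m ≤ n`. -/

set_option autoImplicit false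

namespace Pool.Agent.H74.PL

open Finset

theorem stirling_sum (m n : ℕ) :
    ∑ j ∈ range (n + 1), m.descFactorial j * Nat.stirlingSecond n j = m ^ n := by
  induction n with
  | zero => simp
  | succ n ih =>
    have e1 : ∀ j, m * m.descFactorial j = m.descFactorial (j + 1) + j * m.descFactorial j := by
      intro j
      rcases le_or_gt j m with h | h
      · rw [Nat.descFactorial_succ, ← Nat.add_mul, Nat.sub_add_cancel h]
      · have h1 : m.descFactorial j = 0 := Nat.descFactorial_eq_zero_iff_lt.mpr h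
        have h2 : m.descFactorial (j + 1) = 0 := Nat.descFactorial_eq_zero_iff_lt.mpr (by omega)
        rw [h1, h2]; simp
    have e2 : ∑ j ∈ range (n + 1), m.descFactorial (j + 1) * ((j + 1) * Nat.stirlingSecond n (j + 1)) =
        ∑ j ∈ range (n + 1), m.descFactorial j * (j * Nat.stirlingSecond n j) := by
      have a1 := Finset.sum_range_succ' (fun j => m.descFactorial j * (j * Nat.stirlingSecond n j)) (n + 1)
      have a2 := Finset.sum_range_succ (fun j => m.descFactorial j * (j * Nat.stirlingSecond n j)) (n + 1)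
      have a3 : Nat.stirlingSecond n (n + 1) = 0 := Nat.stirlingSecond_eq_zero_of_lt (Nat.lt_succ_self n)
      simp only [a3, Nat.mul_zero, Nat.add_zero, Nat.zero_mul] at a1 a2
      rw [← a1, a2]
    rw [Finset.sum_range_succ']
    have e3 : m.descFactorial 0 * Nat.stirlingSecond (n + 1) 0 = 0 := by
      rw [Nat.stirlingSecond_succ_zero]; simp
    rw [e3, Nat.add_zero]
    have e4 : ∀ j, m.descFactorial (j + 1) * Nat.stirlingSecond (n + 1) (j + 1) =
        m.descFactorial (j + 1) * ((j + 1) * Nat.stirlingSecond n (j + 1)) +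
          m.descFactorial (j + 1) * Nat.stirlingSecond n j := by
      intro j; rw [Nat.stirlingSecond_succ_succ]; ring
    simp only [e4]
    rw [Finset.sum_add_distrib, e2, ← Finset.sum_add_distrib, pow_succ, ← ih, Finset.sum_mul]
    apply Finset.sum_congr rfl
    intro j _
    calc m.descFactorial j * (j * Nat.stirlingSecond n j) + m.descFactorial (j + 1) * Nat.stirlingSecond n j
        = (m.descFactorial (j + 1) + j * m.descFactorial j) * Nat.stirlingSecond n j := by ring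
      _ = (m * m.descFactorial j) * Nat.stirlingSecond n j := by rw [← e1]
      _ = m.descFactorial j * Nat.stirlingSecond n j * m := by ring

theorem stirling_le (n m : ℕ) : m.factorial * Nat.stirlingSecond n m ≤ m ^ n := by
  rcases le_or_gt m n with h | h
  · rw [← stirling_sum m n]
    have h1 := Finset.single_le_sum (f := fun j => m.descFactorial j * Nat.stirlingSecond n j)
      (fun j _ => Nat.zero_le _) (Finset.mem_range.mpr (Nat.lt_succ_of_le h) : m ∈ range (n + 1))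
    simpa [Nat.descFactorial_self] using h1
  · rw [Nat.stirlingSecond_eq_zero_of_lt h]; simp

/-- the maximiser -/
theorem exists_max (n : ℕ) (hn : 1 ≤ n) : ∃ m : ℕ, 1 ≤ m ∧ m ≤ n ∧
    ∀ k, 1 ≤ k → k ≤ n → k ^ n * m.factorial ≤ m ^ n * k.factorial := by
  obtain ⟨m, hm, h⟩ := Finset.exists_max_image (Finset.Icc 1 n)
    (fun k : ℕ => ((k : ℝ) ^ n / (k.factorial : ℝ))) ⟨1, by simp [hn]⟩
  rw [Finset.mem_Icc] at hm
  refine ⟨m, hm.1, hm.2, fun k h1 h2 => ?_⟩
  have h3 := h k (Finset.mem_Icc.mpr ⟨h1, h2⟩)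
  have hk : (0 : ℝ) < (k.factorial : ℝ) := by exact_mod_cast Nat.factorial_pos k
  have hm' : (0 : ℝ) < (m.factorial : ℝ) := by exact_mod_cast Nat.factorial_pos m
  rw [div_le_div_iff₀ hk hm'] at h3
  exact_mod_cast h3

theorem bell_le (n m : ℕ) (hn : 1 ≤ n)
    (h : ∀ k, 1 ≤ k → k ≤ n → k ^ n * m.factorial ≤ m ^ n * k.factorial) :
    m.factorial * bell n ≤ n * m ^ n := by
  unfold bell
  rw [Finset.sum_range_succ', Nat.mul_add, Finset.mul_sum]
  have h0 : Nat.stirlingSecond n 0 = 0 := by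
    obtain ⟨k, rfl⟩ : ∃ k, n = k + 1 := ⟨n - 1, by omega⟩
    exact Nat.stirlingSecond_succ_zero k
  rw [h0, Nat.mul_zero, Nat.add_zero]
  have h1 : ∀ k ∈ range n, m.factorial * Nat.stirlingSecond n (k + 1) ≤ m ^ n := by
    intro k hk
    rw [Finset.mem_range] at hk
    have h2 := h (k + 1) (by omega) (by omega)
    have h3 := stirling_le n (k + 1)
    have h4 : (k + 1).factorial * (m.factorial * Nat.stirlingSecond n (k + 1)) ≤ (k + 1).factorial * m ^ n := by
      calc (k + 1).factorial * (m.factorial * Nat.stirlingSecond n (k + 1))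
          = m.factorial * ((k + 1).factorial * Nat.stirlingSecond n (k + 1)) := by ring
        _ ≤ m.factorial * (k + 1) ^ n := Nat.mul_le_mul_left _ h3
        _ = (k + 1) ^ n * m.factorial := by ring
        _ ≤ m ^ n * (k + 1).factorial := h2
        _ = (k + 1).factorial * m ^ n := by ring
    exact Nat.le_of_mul_le_mul_left h4 (Nat.factorial_pos _)
  calc ∑ k ∈ range n, m.factorial * Nat.stirlingSecond n (k + 1) ≤ ∑ _k ∈ range n, m ^ n :=
        Finset.sum_le_sum h1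
    _ = n * m ^ n := by simp

/-- comparison with m + 1 -/
theorem up_step (n m : ℕ) (hn : 400 ≤ n) (h1 : 1 ≤ m) (h2 : m ≤ n)
    (h : ∀ k, 1 ≤ k → k ≤ n → k ^ n * m.factorial ≤ m ^ n * k.factorial) :
    (1 + 1 / (m : ℝ)) ^ n ≤ (m : ℝ) + 1 := by
  have hm0 : (0 : ℝ) < (m : ℝ) := by exact_mod_cast h1
  rcases lt_or_eq_of_le h2 with h3 | h3
  · have h4 := h (m + 1) (by omega) (by omega)
    rw [Nat.factorial_succ] at h4
    have h5 : (m + 1) ^ n ≤ m ^ n * (m + 1) := by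
      have : m.factorial * (m + 1) ^ n ≤ m.factorial * (m ^ n * (m + 1)) := by
        calc m.factorial * (m + 1) ^ n = (m + 1) ^ n * m.factorial := by ring
          _ ≤ m ^ n * ((m + 1) * m.factorial) := h4
          _ = m.factorial * (m ^ n * (m + 1)) := by ring
      exact Nat.le_of_mul_le_mul_left this (Nat.factorial_pos _)
    have h6 : ((m : ℝ) + 1) ^ n ≤ (m : ℝ) ^ n * ((m : ℝ) + 1) := by exact_mod_cast h5
    have h7 : (1 + 1 / (m : ℝ)) = ((m : ℝ) + 1) / m := by field_simp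
    rw [h7, div_pow, div_le_iff₀ (pow_pos hm0 n)]
    linarith
  · subst h3
    have h4 : (1 + 1 / (m : ℝ)) ≤ Real.exp (1 / (m : ℝ)) := by
      have := Real.add_one_le_exp (1 / (m : ℝ))
      linarith
    have h5 : (1 + 1 / (m : ℝ)) ^ m ≤ Real.exp 1 := by
      calc (1 + 1 / (m : ℝ)) ^ m ≤ (Real.exp (1 / (m : ℝ))) ^ m :=
            pow_le_pow_left₀ (by positivity) h4 m
        _ = Real.exp 1 := by
            rw [← Real.exp_nat_mul]
            congr 1
            field_simp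
    have h6 := Real.exp_one_lt_d9
    have h7 : (400 : ℝ) ≤ (m : ℝ) := by exact_mod_cast hn
    linarith

theorem sq_gt (x : ℝ) (h : 19 / 2 < x) : 90 < x ^ 2 := by nlinarith

theorem base_le (m : ℕ) (h1 : 1 ≤ m) (hm : m ≤ 88) : (1 + 1 / (88 : ℝ)) ≤ 1 + 1 / (m : ℝ) := by
  have hm0 : (0 : ℝ) < (m : ℝ) := by exact_mod_cast h1
  have hm' : (m : ℝ) ≤ 88 := by exact_mod_cast hm
  have := one_div_le_one_div_of_le hm0 hm'
  linarith

theorem fin_aux (m : ℕ) (hm : m ≤ 88) : (m : ℝ) + 1 ≤ 90 := by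
  have hm' : (m : ℝ) ≤ 88 := by exact_mod_cast hm
  linarith

theorem ge_89 (n m : ℕ) (hn : 400 ≤ n) (h1 : 1 ≤ m) (h : (1 + 1 / (m : ℝ)) ^ n ≤ (m : ℝ) + 1) :
    89 ≤ m := by
  by_contra hc
  have hm : m ≤ 88 := Nat.le_of_lt_succ (Nat.lt_of_not_le hc)
  obtain ⟨b, hb⟩ : ∃ b : ℝ, b = 1 + 1 / (88 : ℝ) := ⟨_, rfl⟩
  have a1 : b ≤ 1 + 1 / (m : ℝ) := hb ▸ base_le m h1 hm
  have b1 : (1 : ℝ) ≤ b := by rw [hb]; norm_num
  have a4 : (19 / 2 : ℝ) < b ^ 200 := by rw [hb]; norm_num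
  clear hb
  have a3 : (90 : ℝ) < (b ^ 200) ^ 2 := sq_gt _ a4
  rw [← pow_mul] at a3
  have a2 : b ^ (200 * 2) ≤ (1 + 1 / (m : ℝ)) ^ n :=
    (pow_le_pow_right₀ b1 (by omega)).trans (pow_le_pow_left₀ (le_trans zero_le_one b1) a1 n)
  exact absurd (lt_of_lt_of_le a3 ((a2.trans h).trans (fin_aux m hm))) (lt_irrefl _)

theorem two_pow_aux (q : ℕ) (hq : 7 ≤ q) : 8 * (q + 1) + 1 ≤ 2 ^ q := by
  induction q, hq using Nat.le_induction with
  | base => norm_num
  | succ q hq ih => rw [pow_succ]; omega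

theorem sq_ge (n m : ℕ) (hm : 89 ≤ m) (h : (1 + 1 / (m : ℝ)) ^ n ≤ (m : ℝ) + 1) :
    8 * n ≤ m ^ 2 := by
  have hm0 : (0 : ℝ) < (m : ℝ) := by exact_mod_cast (by omega : 0 < m)
  have hb : (1 : ℝ) ≤ 1 + 1 / (m : ℝ) := by
    have : (0 : ℝ) < 1 / (m : ℝ) := by positivity
    linarith
  have a1 : (2 : ℝ) ≤ (1 + 1 / (m : ℝ)) ^ m := by
    have := one_add_mul_le_pow (a := 1 / (m : ℝ)) (by
      have : (0 : ℝ) < 1 / (m : ℝ) := by positivity
      linarith) m
    have h2 : (m : ℝ) * (1 / (m : ℝ)) = 1 := by field_simp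
    rw [h2] at this
    linarith
  have a2 : (2 : ℝ) ^ (n / m) ≤ (m : ℝ) + 1 := by
    calc (2 : ℝ) ^ (n / m) ≤ ((1 + 1 / (m : ℝ)) ^ m) ^ (n / m) := pow_le_pow_left₀ (by norm_num) a1 _
      _ = (1 + 1 / (m : ℝ)) ^ (m * (n / m)) := (pow_mul _ _ _).symm
      _ ≤ (1 + 1 / (m : ℝ)) ^ n := pow_le_pow_right₀ hb (Nat.mul_div_le n m)
      _ ≤ (m : ℝ) + 1 := h
  have a3 : 2 ^ (n / m) ≤ m + 1 := by exact_mod_cast a2
  have a4 : 8 * (n / m + 1) ≤ m := by
    rcases le_or_gt (n / m) 10 with h1 | h1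
    · omega
    · have := two_pow_aux (n / m) (by omega)
      omega
  have a5 : n < m * (n / m + 1) := Nat.lt_mul_div_succ n (by omega)
  nlinarith

theorem four_le (n m : ℕ) (hm : 89 ≤ m) (h : (m - 1) ^ n * m.factorial ≤ m ^ n * (m - 1).factorial) :
    4 * m ≤ n := by
  by_contra hc
  have hlt : n ≤ 4 * m := by omega
  have e1 : m.factorial = m * (m - 1).factorial := (Nat.mul_factorial_pred (by omega)).symm
  have h1 : (m - 1) ^ n * m ≤ m ^ n := by
    have : (m - 1).factorial * ((m - 1) ^ n * m) ≤ (m - 1).factorial * m ^ n := by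
      calc (m - 1).factorial * ((m - 1) ^ n * m) = (m - 1) ^ n * (m * (m - 1).factorial) := by ring
        _ = (m - 1) ^ n * m.factorial := by rw [← e1]
        _ ≤ m ^ n * (m - 1).factorial := h
        _ = (m - 1).factorial * m ^ n := by ring
    exact Nat.le_of_mul_le_mul_left this (Nat.factorial_pos _)
  obtain ⟨k, rfl⟩ : ∃ k, m = k + 1 := ⟨m - 1, by omega⟩
  have hk : 88 ≤ k := by omega
  simp only [Nat.add_sub_cancel] at h1
  have hkr : (88 : ℝ) ≤ (k : ℝ) := by exact_mod_cast hk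
  have hk0 : (0 : ℝ) < (k : ℝ) := by linarith
  have h2 : (k : ℝ) ^ n * ((k : ℝ) + 1) ≤ ((k : ℝ) + 1) ^ n := by exact_mod_cast h1
  have h3 : (k : ℝ) + 1 ≤ (1 + 1 / (k : ℝ)) ^ n := by
    have h7 : (1 + 1 / (k : ℝ)) = ((k : ℝ) + 1) / k := by field_simp
    rw [h7, div_pow, le_div_iff₀ (pow_pos hk0 n)]
    linarith
  have hb : (1 : ℝ) ≤ 1 + 1 / (k : ℝ) := by
    have : (0 : ℝ) < 1 / (k : ℝ) := by positivity
    linarith
  have h4 : (1 + 1 / (k : ℝ)) ^ n ≤ Real.exp (17 / 4) := by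
    calc (1 + 1 / (k : ℝ)) ^ n ≤ (1 + 1 / (k : ℝ)) ^ (4 * (k + 1)) := pow_le_pow_right₀ hb hlt
      _ ≤ (Real.exp (1 / (k : ℝ))) ^ (4 * (k + 1)) := by
          apply pow_le_pow_left₀ (by positivity)
          have := Real.add_one_le_exp (1 / (k : ℝ))
          linarith
      _ = Real.exp (((4 * (k + 1) : ℕ) : ℝ) * (1 / (k : ℝ))) := (Real.exp_nat_mul _ _).symm
      _ ≤ Real.exp (17 / 4) := by
          apply Real.exp_le_exp.mpr
          rw [mul_one_div, div_le_iff₀ hk0]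
          push_cast
          linarith
  have h5 : Real.exp (17 / 4) < 89 := by
    have h6 : Real.exp (17 / 4) ^ 4 = Real.exp 1 ^ 17 := by
      rw [← Real.exp_nat_mul, ← Real.exp_nat_mul]
      congr 1
      norm_num
    have h7 : Real.exp 1 ^ 17 < (2.7182818286 : ℝ) ^ 17 :=
      pow_lt_pow_left₀ Real.exp_one_lt_d9 (Real.exp_pos 1).le (by norm_num)
    have h8 : (2.7182818286 : ℝ) ^ 17 < 89 ^ 4 := by norm_num
    have h9 : Real.exp (17 / 4) ^ 4 < (89 : ℝ) ^ 4 := by rw [h6]; linarith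
    exact lt_of_pow_lt_pow_left₀ 4 (by norm_num) h9
  linarith

theorem choice (n : ℕ) (hn : 400 ≤ n) : ∃ m : ℕ, 89 ≤ m ∧ 4 * m ≤ n ∧ 8 * n ≤ m ^ 2 ∧
    m.factorial * bell n ≤ n * m ^ n := by
  obtain ⟨m, h1, h2, h3⟩ := exists_max n (by omega)
  have h4 := up_step n m hn h1 h2 h3
  have h5 := ge_89 n m hn h1 h4
  exact ⟨m, h5, four_le n m h5 (h3 (m - 1) (by omega) (by omega)), sq_ge n m h5 h4,
    bell_le n m (by omega) h3⟩

end Pool.Agent.H74.PL
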