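import Mathlib

/-! # [H74 PL LA2] a factorial inequality (self-contained)

PROOF. Put `q = n/m, r = n%m` (so `m (q) + r = n`; `m - r` numbers `b_i = q`, `r` numbers `b_i = q+1`, `∑ b_i = n`), `β = n/m` real, `β ≥ 4`. Use `log n! ≥ n log n - n` and `log k! ≤ 1 + (log k)/2 + k log k - k` for `k ≥ 1` (Stirling). Everything is compared in logarithms; `log b ≤ log β + (b-β)/β`, the sum of the `b (b-β)/β` is at most `m/β`, `(n-m) log(n/(n-m)) ≥ 6m/7` (from `2u/(u+2) ≤ log(1+u)`, `u = m/(n-m) ≤ 1/3`). It remains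
`2 log n + 2 + (log (m(n-m)))/2 - log m < (m/2) log β - m/β - m/7`; the right side is at least `(log 2 - 1/4 - 1/7) m`, the left side at most `2 + 5 log m - 9 log 2 ≤ -3 + 26 log 2 + 5m/128`. -/

set_option autoImplicit false

namespace Pool.Agent.H74.PL

private lemma log_fact_le (k : ℕ) (hk : 1 ≤ k) :
    Real.log (k.factorial : ℝ) ≤ 1 + Real.log k / 2 + k * Real.log k - k := by
  obtain ⟨j, rfl⟩ : ∃ j, k = j + 1 := ⟨k - 1, by omega⟩
  have h := Stirling.log_stirlingSeq'_antitone (Nat.zero_le j)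
  simp only [Function.comp] at h
  rw [Stirling.log_stirlingSeq_formula] at h
  have h1 : Real.log (Stirling.stirlingSeq (Nat.succ 0)) = 1 - Real.log 2 / 2 := by
    rw [Nat.succ_eq_add_one, zero_add, Stirling.stirlingSeq_one, Real.log_div (by positivity) (by positivity),
      Real.log_exp, Real.log_sqrt (by norm_num)]
  rw [h1, Nat.succ_eq_add_one] at h
  have hp : (0 : ℝ) < ((j + 1 : ℕ) : ℝ) := by positivity
  have h2 : Real.log (2 * ((j + 1 : ℕ) : ℝ)) = Real.log 2 + Real.log ((j + 1 : ℕ) : ℝ) :=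
    Real.log_mul (by norm_num) hp.ne'
  have h3 : Real.log (((j + 1 : ℕ) : ℝ) / Real.exp 1) = Real.log ((j + 1 : ℕ) : ℝ) - 1 := by
    rw [Real.log_div hp.ne' (by positivity), Real.log_exp]
  rw [h2, h3] at h
  linarith

private lemma le_log_fact (n : ℕ) (hn : 1 ≤ n) :
    n * Real.log n - n ≤ Real.log (n.factorial : ℝ) := by
  have hp : (0 : ℝ) < (n : ℝ) := by exact_mod_cast hn
  have h := Real.pow_div_factorial_le_exp (n : ℝ) hp.le n
  have h1 := Real.log_le_log (by positivity) h
  rw [Real.log_exp, Real.log_div (by positivity) (by positivity), Real.log_pow] at h1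
  linarith

private lemma log_b_fact (b : ℕ) (hb : 1 ≤ b) (β : ℝ) (hβ : 0 < β) :
    Real.log (b.factorial : ℝ) ≤ 1 - b + (1 / 2 + b) * (Real.log β + (b - β) / β) := by
  have h := log_fact_le b hb
  have hp : (0 : ℝ) < (b : ℝ) := by exact_mod_cast hb
  have h1 : Real.log (b : ℝ) ≤ Real.log β + (b - β) / β := by
    have h2 := Real.log_le_sub_one_of_pos (show (0 : ℝ) < b / β by positivity)
    rw [Real.log_div hp.ne' hβ.ne'] at h2
    have h3 : (b - β) / β = b / β - 1 := by field_simp
    linarith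
  have h4 : (1 / 2 + (b : ℝ)) * Real.log b ≤ (1 / 2 + b) * (Real.log β + (b - β) / β) :=
    mul_le_mul_of_nonneg_left h1 (by positivity)
  nlinarith [h, h4]

theorem fact_ineq (n m : ℕ) (h1 : 89 ≤ m) (h2 : 4 * m ≤ n) (h3 : 8 * n ≤ m ^ 2) :
    n ^ 2 * m ^ n * (n - m).factorial * m.factorial *
      ((n / m).factorial ^ (m - n % m) * (n / m + 1).factorial ^ (n % m)) < m * n.factorial ^ 2 := by
  have hm0 : 0 < m := by omega
  have hn0 : 0 < n := by omega
  have hnm : 0 < n - m := by omega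
  have hrm : n % m < m := Nat.mod_lt _ hm0
  have hq : 1 ≤ n / m := by
    rw [Nat.one_le_div_iff hm0]; omega
  have hdiv : m * (n / m) + n % m = n := Nat.div_add_mod n m
  -- reals
  have hM : (0 : ℝ) < m := by exact_mod_cast hm0
  have hN : (0 : ℝ) < n := by exact_mod_cast hn0
  have hNM : (0 : ℝ) < ((n - m : ℕ) : ℝ) := by exact_mod_cast hnm
  have hNMe : ((n - m : ℕ) : ℝ) = (n : ℝ) - m := by
    rw [Nat.cast_sub (by omega)]
  have hM89 : (89 : ℝ) ≤ m := by exact_mod_cast h1
  have h4 : 4 * (m : ℝ) ≤ n := by exact_mod_cast h2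
  have h8 : 8 * (n : ℝ) ≤ (m : ℝ) ^ 2 := by exact_mod_cast h3
  set β : ℝ := (n : ℝ) / m with hβ
  have hβ4 : 4 ≤ β := by rw [hβ, le_div_iff₀ hM]; exact h4
  have hβ0 : 0 < β := by linarith
  have hβm : β * m = n := by rw [hβ]; field_simp
  -- the b part
  set q : ℕ := n / m with hqd
  set r : ℕ := n % m with hrd
  have hR : (0 : ℝ) ≤ (r : ℝ) := Nat.cast_nonneg _
  have hRM : (r : ℝ) ≤ m := by exact_mod_cast hrm.le
  have hqr : (m : ℝ) * q + r = n := by exact_mod_cast hdiv
  have hmr : ((m - r : ℕ) : ℝ) = (m : ℝ) - r := by rw [Nat.cast_sub hrm.le]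
  have hb1 := log_b_fact q hq β hβ0
  have hb2 := log_b_fact (q + 1) (by omega) β hβ0
  have hB : ((m - r : ℕ) : ℝ) * Real.log (q.factorial : ℝ) + r * Real.log ((q + 1).factorial : ℝ) ≤
      m - n + (m / 2 + n) * Real.log β + m / β := by
    have e1 : ((m - r : ℕ) : ℝ) * Real.log (q.factorial : ℝ) ≤
        ((m : ℝ) - r) * (1 - q + (1 / 2 + q) * (Real.log β + (q - β) / β)) := by
      rw [hmr]; exact mul_le_mul_of_nonneg_left hb1 (by linarith)
    have e2 : (r : ℝ) * Real.log ((q + 1).factorial : ℝ) ≤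
        r * (1 - ((q + 1 : ℕ) : ℝ) + (1 / 2 + ((q + 1 : ℕ) : ℝ)) * (Real.log β + (((q + 1 : ℕ) : ℝ) - β) / β)) :=
      mul_le_mul_of_nonneg_left hb2 hR
    push_cast at e2
    have e3 : ((m : ℝ) - r) * (1 - q + (1 / 2 + q) * (Real.log β + (q - β) / β)) +
        r * (1 - ((q : ℝ) + 1) + (1 / 2 + ((q : ℝ) + 1)) * (Real.log β + (((q : ℝ) + 1) - β) / β)) =
        (m - (m * q + r)) + (m / 2 + (m * q + r)) * Real.log β +
          ((m * q + r - β * m) / 2 + (((m : ℝ) - r) * q * (q - β) + r * (q + 1) * (q + 1 - β))) / β := by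
      field_simp
      ring
    have e4 : ((m * q + r - β * m) / 2 + (((m : ℝ) - r) * q * (q - β) + r * (q + 1) * (q + 1 - β))) ≤ m := by
      have f1 : (m : ℝ) * q + r - β * m = 0 := by rw [hβm, hqr]; ring
      have f2 : (m : ℝ) * ((((m : ℝ) - r) * q * (q - β) + r * (q + 1) * (q + 1 - β))) = r * (m - r) := by
        have f3 : β * m = m * q + r := by rw [hβm, hqr]
        have : (m : ℝ) * ((((m : ℝ) - r) * q * (q - β) + r * (q + 1) * (q + 1 - β))) =
            m * (m * q ^ 2 + 2 * r * q + r) - (β * m) * (m * q + r) := by ring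
        rw [this, f3]; ring
      rw [f1, zero_div, zero_add]
      have f4 : (r : ℝ) * (m - r) ≤ m * m := by nlinarith
      rw [← f2] at f4
      exact le_of_mul_le_mul_left f4 hM
    have e5 : ((m * q + r - β * m) / 2 + (((m : ℝ) - r) * q * (q - β) + r * (q + 1) * (q + 1 - β))) / β ≤ m / β :=
      div_le_div_of_nonneg_right e4 hβ0.le
    rw [hqr] at e3 e5
    linarith [e1, e2, e3, e5]
  -- log (n/(n-m))
  have hu : 6 * (m : ℝ) / 7 ≤ ((n : ℝ) - m) * (Real.log n - Real.log ((n - m : ℕ) : ℝ)) := by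
    have hd : (0 : ℝ) < (n : ℝ) - m := by linarith
    have u0 : (0 : ℝ) ≤ m / ((n : ℝ) - m) := by positivity
    have g := Real.le_log_one_add_of_nonneg u0
    have g1 : 1 + (m : ℝ) / ((n : ℝ) - m) = n / ((n : ℝ) - m) := by field_simp; ring
    rw [g1, Real.log_div hN.ne' hd.ne'] at g
    rw [hNMe]
    have g2 : 6 * (m : ℝ) / 7 ≤ ((n : ℝ) - m) * (2 * (m / ((n : ℝ) - m)) / (m / ((n : ℝ) - m) + 2)) := by
      have g3 : ((n : ℝ) - m) * (2 * (m / ((n : ℝ) - m)) / (m / ((n : ℝ) - m) + 2)) =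
          2 * m * ((n : ℝ) - m) / (2 * n - m) := by
        have : (m : ℝ) / ((n : ℝ) - m) + 2 = (2 * n - m) / ((n : ℝ) - m) := by field_simp; ring
        rw [this]
        have hd2 : (2 * (n : ℝ) - m) ≠ 0 := by nlinarith
        field_simp
      rw [g3, div_le_div_iff₀ (by norm_num) (by nlinarith)]
      nlinarith
    exact g2.trans (mul_le_mul_of_nonneg_left g hd.le)
  -- logs of the right and left side
  have hL1 := le_log_fact n hn0
  have hL2 := log_fact_le (n - m) hnm
  have hL3 := log_fact_le m hm0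
  have hlogβ : Real.log β = Real.log n - Real.log m := by rw [hβ, Real.log_div hN.ne' hM.ne']
  have hl2 := Real.log_two_gt_d9
  have hl2' := Real.log_two_lt_d9
  have hβlog : 2 * Real.log 2 ≤ Real.log β := by
    have : Real.log 4 = 2 * Real.log 2 := by
      rw [show (4 : ℝ) = 2 ^ 2 by norm_num, Real.log_pow]; norm_num
    rw [← this]; exact Real.log_le_log (by norm_num) hβ4
  have hmβ : (m : ℝ) / β ≤ m / 4 := div_le_div_of_nonneg_left hM.le (by norm_num) hβ4
  have hnmle : Real.log ((n - m : ℕ) : ℝ) ≤ Real.log n :=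
    Real.log_le_log hNM (by rw [hNMe]; linarith)
  have hnlog : Real.log n ≤ 2 * Real.log m - 3 * Real.log 2 := by
    have : Real.log (8 * (n : ℝ)) ≤ Real.log ((m : ℝ) ^ 2) := Real.log_le_log (by positivity) h8
    rw [Real.log_mul (by norm_num) hN.ne', Real.log_pow, show (8 : ℝ) = 2 ^ 3 by norm_num, Real.log_pow] at this
    push_cast at this
    linarith
  have hmlog : Real.log m ≤ 7 * Real.log 2 + m / 128 - 1 := by
    have := Real.log_le_sub_one_of_pos (show (0 : ℝ) < m / 128 by positivity)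
    rw [Real.log_div hM.ne' (by norm_num), show (128 : ℝ) = 2 ^ 7 by norm_num, Real.log_pow] at this
    push_cast at this
    linarith
  have key : Real.log ((n : ℝ) ^ 2 * m ^ n * (n - m).factorial * m.factorial *
      ((q.factorial : ℝ) ^ (m - r) * ((q + 1).factorial : ℝ) ^ r)) < Real.log (m * (n.factorial : ℝ) ^ 2) := by
    have c1 : Real.log ((n : ℝ) ^ 2 * m ^ n * (n - m).factorial * m.factorial *
        ((q.factorial : ℝ) ^ (m - r) * ((q + 1).factorial : ℝ) ^ r)) =
        2 * Real.log n + n * Real.log m + Real.log ((n - m).factorial : ℝ) + Real.log (m.factorial : ℝ) +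
          (((m - r : ℕ) : ℝ) * Real.log (q.factorial : ℝ) + r * Real.log ((q + 1).factorial : ℝ)) := by
      rw [Real.log_mul (by positivity) (by positivity), Real.log_mul (by positivity) (by positivity),
        Real.log_mul (by positivity) (by positivity), Real.log_mul (by positivity) (by positivity),
        Real.log_mul (by positivity) (by positivity), Real.log_pow, Real.log_pow, Real.log_pow, Real.log_pow]
      push_cast
      ring
    have c2 : Real.log (m * (n.factorial : ℝ) ^ 2) = Real.log m + 2 * Real.log (n.factorial : ℝ) := by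
      rw [Real.log_mul (by positivity) (by positivity), Real.log_pow]; push_cast; ring
    rw [c1, c2]
    rw [hlogβ] at hB hβlog
    rw [hNMe] at hL2
    have hM2 : (m : ℝ) * (2 * Real.log 2) ≤ m * (Real.log n - Real.log m) :=
      mul_le_mul_of_nonneg_left hβlog hM.le
    have hM3 : (m : ℝ) * 0.6931471803 ≤ m * Real.log 2 := mul_le_mul_of_nonneg_left hl2.le hM.le
    rw [hNMe] at hu hnmle
    nlinarith [hB, hu, hL1, hL2, hL3, hM2, hM3, hmβ, hnmle, hnlog, hmlog]
  have pos1 : (0 : ℝ) < (n : ℝ) ^ 2 * m ^ n * (n - m).factorial * m.factorial *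
      ((q.factorial : ℝ) ^ (m - r) * ((q + 1).factorial : ℝ) ^ r) := by positivity
  have fin := (Real.log_lt_log_iff pos1 (by positivity)).1 key
  exact_mod_cast fin

end Pool.Agent.H74.PL
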