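import Pool.Agent.H74.PL.La1
import Pool.Agent.H74.PL.La2

/-! # [H74 PL LAR] the arithmetic inequality for n ≥ 400 (from La1, La2) -/

set_option autoImplicit false

namespace Pool.Agent.H74.PL

open Finset

theorem large (n : ℕ) (hn : 400 ≤ n) : ∃ m : ℕ, 1 ≤ m ∧ m ≤ n ∧
    (n - m).factorial * m.factorial * (m - 1).factorial *
      ((n / m).factorial ^ (m - n % m) * (n / m + 1).factorial ^ (n % m)) * bell n < n.factorial * (n - 1).factorial := by
  obtain ⟨m, h1, h2, h3, h4⟩ := choice n hn
  have h5 := fact_ineq n m h1 h2 h3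
  refine ⟨m, by omega, by omega, ?_⟩
  have hm : m.factorial = m * (m - 1).factorial := (Nat.mul_factorial_pred (by omega)).symm
  have hnn : n.factorial = n * (n - 1).factorial := (Nat.mul_factorial_pred (by omega)).symm
  set A := (n - m).factorial * ((n / m).factorial ^ (m - n % m) * (n / m + 1).factorial ^ (n % m)) with hA
  have hmf : 0 < m.factorial := Nat.factorial_pos m
  -- n ^ 2 * m ^ n * A * m! < m * n! ^ 2
  have h6 : n ^ 2 * m ^ n * A * m.factorial < m * n.factorial ^ 2 := by
    calc _ = _ := by rw [hA]; ring
      _ < _ := h5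
  have h7 : n * (m * ((n - m).factorial * m.factorial * (m - 1).factorial *
      ((n / m).factorial ^ (m - n % m) * (n / m + 1).factorial ^ (n % m)) * bell n)) <
      n * (m * (n.factorial * (n - 1).factorial)) := by
    calc n * (m * ((n - m).factorial * m.factorial * (m - 1).factorial *
      ((n / m).factorial ^ (m - n % m) * (n / m + 1).factorial ^ (n % m)) * bell n))
        = n * A * (m * (m - 1).factorial) * (m.factorial * bell n) := by rw [hA]; ring
      _ = n * A * m.factorial * (m.factorial * bell n) := by rw [← hm]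
      _ ≤ n * A * m.factorial * (n * m ^ n) := Nat.mul_le_mul_left _ h4
      _ = n ^ 2 * m ^ n * A * m.factorial := by ring
      _ < m * n.factorial ^ 2 := h6
      _ = n * (m * (n.factorial * (n - 1).factorial)) := by rw [pow_two]; nth_rewrite 2 [hnn]; ring
  exact Nat.lt_of_mul_lt_mul_left (Nat.lt_of_mul_lt_mul_left h7)

end Pool.Agent.H74.PL
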