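import Pool.Agent.H74.PL.Def

/-! # [H74 PL SMA] the arithmetic inequality for 10 ≤ n < 400 (kernel computation)

`m = n/4 + 3`; the rows of Stirling numbers are computed one after the other. -/

set_option autoImplicit false

namespace Pool.Agent.H74.PL

open Finset

/-- next row of Stirling numbers; `k` the index of the head, `p` the previous entry -/
def nxt (l : List ℕ) : ℕ → ℕ → List ℕ := l.rec (fun _ p => [p]) (fun x _ r k p => (k * x + p) :: r (k + 1) x)

/-- row `n` -/
def rowS (n : ℕ) : List ℕ := (List.range (n + 1)).map (Nat.stirlingSecond n)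

/-- the inequality as a boolean -/
def okB (n m B : ℕ) : Bool :=
  Nat.blt ((n - m).factorial * m.factorial * (m - 1).factorial *
      ((n / m).factorial ^ (m - n % m) * (n / m + 1).factorial ^ (n % m)) * B) (n.factorial * (n - 1).factorial)

/-- check `k` rows starting with row `n` -/
def go (k : ℕ) : ℕ → List ℕ → Bool :=
  k.rec (fun _ _ => true) (fun _ r n l => okB n (n / 4 + 3) l.sum && r (n + 1) (nxt l 0 0))

theorem nxt_eq (n : ℕ) (f : ℕ → ℕ) (len k p : ℕ) (hf : ∀ i, k ≤ i → i < k + len → f i = Nat.stirlingSecond n i)
    (hp : p = if k = 0 then 0 else Nat.stirlingSecond n (k - 1)) (hlen : k + len = n + 1) :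
    nxt ((List.range' k len).map f) k p = (List.range' k (len + 1)).map (Nat.stirlingSecond (n + 1)) := by
  induction len generalizing k p with
  | zero =>
    have hk : k = n + 1 := by omega
    subst hk
    simp [nxt, hp, Nat.stirlingSecond_self]
  | succ len ih =>
    have h1 : (List.range' k (len + 1)).map f = f k :: (List.range' (k + 1) len).map f := by
      simp [List.range'_succ]
    have h2 : (List.range' k (len + 1 + 1)).map (Nat.stirlingSecond (n + 1)) =
        Nat.stirlingSecond (n + 1) k :: (List.range' (k + 1) (len + 1)).map (Nat.stirlingSecond (n + 1)) := by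
      rw [List.range'_succ, List.map_cons]
    rw [h1, h2]
    have h3 : nxt (f k :: (List.range' (k + 1) len).map f) k p =
        (k * f k + p) :: nxt ((List.range' (k + 1) len).map f) (k + 1) (f k) := rfl
    rw [h3, ih (k + 1) (f k) (fun i h4 h5 => hf i (by omega) (by omega)) (by
      rw [if_neg (by omega), Nat.add_sub_cancel]
      exact hf k le_rfl (by omega)) (by omega)]
    congr 1
    rw [hf k le_rfl (by omega), hp]
    rcases k with _ | k
    · simp [Nat.stirlingSecond]
    · rw [if_neg (by omega), Nat.add_sub_cancel]
      simp [Nat.stirlingSecond]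

theorem nxt_row (n : ℕ) : nxt (rowS n) 0 0 = rowS (n + 1) := by
  unfold rowS
  rw [List.range_eq_range', List.range_eq_range']
  exact nxt_eq n _ (n + 1) 0 0 (fun i _ _ => rfl) rfl (by omega)

theorem sum_row (n : ℕ) : (rowS n).sum = bell n := by
  unfold rowS bell
  induction (n + 1) with
  | zero => simp
  | succ k ih => rw [List.range_succ, List.map_append, List.sum_append, ih, Finset.sum_range_succ]; simp

theorem go_spec (k n : ℕ) (h : go k n (rowS n) = true) : ∀ i, n ≤ i → i < n + k →
    okB i (i / 4 + 3) (bell i) = true := by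
  induction k generalizing n with
  | zero => intro i h1 h2; omega
  | succ k ih =>
    have h1 : go (k + 1) n (rowS n) = (okB n (n / 4 + 3) (rowS n).sum && go k (n + 1) (nxt (rowS n) 0 0)) := rfl
    rw [h1, Bool.and_eq_true, nxt_row, sum_row] at h
    intro i h2 h3
    rcases Nat.eq_or_lt_of_le h2 with rfl | h4
    · exact h.1
    · exact ih (n + 1) h.2 i (by omega) (by omega)

theorem row10 : rowS 10 = [0, 1, 511, 9330, 34105, 42525, 22827, 5880, 750, 45, 1] := by decide +kernel

theorem go10 : go 390 10 [0, 1, 511, 9330, 34105, 42525, 22827, 5880, 750, 45, 1] = true := by decide +kernel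

theorem small (n : ℕ) (hn : 10 ≤ n) (hn2 : n < 400) : ∃ m : ℕ, 1 ≤ m ∧ m ≤ n ∧
    (n - m).factorial * m.factorial * (m - 1).factorial *
      ((n / m).factorial ^ (m - n % m) * (n / m + 1).factorial ^ (n % m)) * bell n < n.factorial * (n - 1).factorial := by
  have h := go_spec 390 10 (by rw [row10]; exact go10) n hn (by omega)
  refine ⟨n / 4 + 3, by omega, by omega, ?_⟩
  exact Nat.le_of_ble_eq_true h

end Pool.Agent.H74.PL
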