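import Pool.Agent.H74.PL.Cnt
import Pool.Agent.H74.PL.Lar
import Pool.Agent.H74.PL.Sma
import Pool.Agent.H74.PL.Bel

/-! # [H74 PL NEG] no property (∗) for n ≥ 10

PROOF. Take `m` from `large` / `small` and an equipartition `x` of `univ` with `m` parts (`Finpartition.exists_equipartition_card_eq`), `∏ |B|! = (n/m)!^(m - n%m) (n/m+1)!^(n%m)`
(`IsEquipartition.card_large_parts_eq_mod`, `card_small_parts_eq_mod`). Property (∗) for `A = {x}`: `1/card ≤ numHit {x} / numMaxChains`, `numHit {x} = dn x * up x` (`numHit_singleton`), so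
`numMaxChains ≤ card * dn x * up x ≤ bell n * ..`, i.e. `n! (n-1)!/2^(n-1) ≤ bell n * (n-m)! ∏/2^(n-m) * m! (m-1)!/2^(m-1)`: contradiction. -/

set_option autoImplicit false

namespace Pool.Agent.H74.PL

open Finset Pool.Agent.H37.Star

private theorem prod_parts {n m : ℕ} (x : Pn n) (hx : x.IsEquipartition) (hm : #x.parts = m) :
    ∏ B ∈ x.parts, (#B).factorial =
      (n / m).factorial ^ (m - n % m) * (n / m + 1).factorial ^ (n % m) := by
  have hs : #(univ : Finset (Fin n)) = n := by rw [card_univ, Fintype.card_fin]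
  have h1 := hx.card_large_parts_eq_mod
  have h2 := hx.card_small_parts_eq_mod
  have h3 := hx.filter_ne_average_add_one_eq_average
  rw [hs, hm] at h1 h2 h3
  rw [← prod_filter_mul_prod_filter_not x.parts (fun p => #p = n / m + 1)
    (fun B => (#B).factorial), h3]
  have e1 : ∏ B ∈ x.parts with #B = n / m + 1, (#B).factorial =
      (n / m + 1).factorial ^ (n % m) := by
    rw [← h1, ← prod_const]
    refine prod_congr rfl fun B hB => ?_
    rw [(mem_filter.1 hB).2]
  have e2 : ∏ B ∈ x.parts with #B = n / m, (#B).factorial =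
      (n / m).factorial ^ (m - n % m) := by
    rw [← h2, ← prod_const]
    refine prod_congr rfl fun B hB => ?_
    rw [(mem_filter.1 hB).2]
  rw [e1, e2, mul_comm]

theorem neg {n : ℕ} (hn : 10 ≤ n) : ¬ PropStar (Pn n) := by
  intro hstar
  obtain ⟨m, hm1, hmn, hlt⟩ : ∃ m : ℕ, 1 ≤ m ∧ m ≤ n ∧
      (n - m).factorial * m.factorial * (m - 1).factorial *
        ((n / m).factorial ^ (m - n % m) * (n / m + 1).factorial ^ (n % m)) * bell n <
        n.factorial * (n - 1).factorial := by
    rcases Nat.lt_or_ge n 400 with h | h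
    · exact small n hn h
    · exact large n h
  obtain ⟨x, hx, hxm⟩ := Finpartition.exists_equipartition_card_eq (univ : Finset (Fin n))
    (n := m) (by omega) (by rw [card_univ, Fintype.card_fin]; exact hmn)
  have hn1 : 1 ≤ n := by omega
  have h1 := hstar {x}
  have hN := numMaxChains_eq hn1
  have hNpos : (0 : ℝ) < numMaxChains (Pn n) := by
    rw [hN]
    positivity
  have hc : (0 : ℝ) < Nat.card (Pn n) := by
    exact_mod_cast Nat.card_pos
  rw [numHit_singleton, Set.ncard_singleton, div_le_div_iff₀ hc hNpos] at h1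
  have hd := dn_eq hn1 x
  have hu := up_eq hn1 x
  rw [hxm] at hd hu
  have hp : (∏ B ∈ x.parts, ((#B).factorial : ℝ)) =
      (((n / m).factorial ^ (m - n % m) * (n / m + 1).factorial ^ (n % m) : ℕ) : ℝ) := by
    rw [← prod_parts x hx hxm]
    push_cast
    rfl
  rw [hp] at hd
  have hb : (Nat.card (Pn n) : ℝ) ≤ bell n := by
    rw [Nat.card_eq_fintype_card]
    exact_mod_cast card_le_bell n
  have hpow : (2 : ℝ) ^ (n - m) * 2 ^ (m - 1) = 2 ^ (n - 1) := by
    rw [← pow_add]
    congr 1
    omega
  have h2 : (n.factorial : ℝ) * ((n - 1).factorial : ℝ) ≤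
      (((n - m).factorial * m.factorial * (m - 1).factorial *
        ((n / m).factorial ^ (m - n % m) * (n / m + 1).factorial ^ (n % m)) * bell n : ℕ) : ℝ) := by
    have h3 : ((dn x * up x : ℕ) : ℝ) * Nat.card (Pn n) ≤ ((dn x * up x : ℕ) : ℝ) * bell n :=
      mul_le_mul_of_nonneg_left hb (Nat.cast_nonneg _)
    have h4 : (numMaxChains (Pn n) : ℝ) ≤ ((dn x * up x : ℕ) : ℝ) * bell n := by
      have h5 : ((1 : ℕ) : ℝ) * (numMaxChains (Pn n) : ℝ) = numMaxChains (Pn n) := by
        rw [Nat.cast_one, one_mul]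
      rw [h5] at h1
      exact h1.trans h3
    rw [hN, div_le_iff₀ (by positivity), Nat.cast_mul, hd, hu] at h4
    refine h4.trans (le_of_eq ?_)
    rw [← hpow]
    push_cast
    field_simp
  have h6 : n.factorial * (n - 1).factorial ≤
      (n - m).factorial * m.factorial * (m - 1).factorial *
        ((n / m).factorial ^ (m - n % m) * (n / m + 1).factorial ^ (n % m)) * bell n := by
    exact_mod_cast h2
  exact absurd hlt (not_lt.2 h6)

end Pool.Agent.H74.PL
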