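import Pool.Agent.H74.PL.Pos
import Pool.Agent.H74.PL.Tab
import Pool.Agent.H74.PL.Neg

/-! # [H74 PL MAIN] the lattice of set partitions has property (∗) iff n ≤ 9 -/

set_option autoImplicit false

namespace Pool.Agent.H74.PL

open Finset Pool.Agent.H37.Star

/-- one-element posets -/
theorem star_of_subsingleton {P : Type} [PartialOrder P] [Fintype P] [Nonempty P] [Subsingleton P] : PropStar P := by
  intro A
  rcases A.eq_empty_or_nonempty with rfl | hA
  · rw [Set.ncard_empty]
    simp only [Nat.cast_zero, zero_div]
    positivity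
  · have hAu : A = Set.univ := by
      obtain ⟨a, ha⟩ := hA
      ext x
      exact ⟨fun _ => Set.mem_univ _, fun _ => by rwa [Subsingleton.elim x a]⟩
    have hset : {C : Set P | IsMaxChain (· ≤ ·) C ∧ (C ∩ A).Nonempty} = {C : Set P | IsMaxChain (· ≤ ·) C} := by
      ext C
      simp only [Set.mem_setOf_eq, hAu, Set.inter_univ, and_iff_left_iff_imp]
      intro hC
      by_contra hcon
      rw [Set.not_nonempty_iff_eq_empty] at hcon
      subst hcon
      have h1 := hC.2 (t := Set.univ) (fun x _ y _ hxy => absurd (Subsingleton.elim x y) hxy) (Set.empty_subset _)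
      obtain ⟨a⟩ := ‹Nonempty P›
      have h2 : a ∈ (∅ : Set P) := by
        rw [h1]
        exact Set.mem_univ a
      exact h2
    have hne : (0 : ℝ) < numMaxChains P := by
      have := numMaxChains_pos (Q := P)
      exact_mod_cast this
    have h2 : numHit P A = numMaxChains P := by
      unfold numHit numMaxChains
      rw [hset]
    rw [h2, div_self hne.ne', hAu, Set.ncard_univ]
    have h3 : (0 : ℝ) < Nat.card P := by exact_mod_cast Nat.card_pos
    rw [div_self h3.ne']

theorem pos {n : ℕ} (hn : n ≤ 9) : PropStar (Pn n) := by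
  interval_cases n
  · have : Subsingleton (Pn 0) := by
      have h : (univ : Finset (Fin 0)) = ⊥ := rfl
      show Subsingleton (Finpartition (univ : Finset (Fin 0)))
      rw [h]
      infer_instance
    exact star_of_subsingleton
  · exact star_of_chk (by norm_num) (by norm_num) _ _ _ chk1 nd1 pos1
  · exact star_of_chk (by norm_num) (by norm_num) _ _ _ chk2 nd2 pos2
  · exact star_of_chk (by norm_num) (by norm_num) _ _ _ chk3 nd3 pos3
  · exact star_of_chk (by norm_num) (by norm_num) _ _ _ chk4 nd4 pos4
  · exact star_of_chk (by norm_num) (by norm_num) _ _ _ chk5 nd5 pos5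
  · exact star_of_chk (by norm_num) (by norm_num) _ _ _ chk6 nd6 pos6
  · exact star_of_chk (by norm_num) (by norm_num) _ _ _ chk7 nd7 pos7
  · exact star_of_chk (by norm_num) (by norm_num) _ _ _ chk8 nd8 pos8
  · exact star_of_chk (by norm_num) (by norm_num) _ _ _ chk9 nd9 pos9

theorem main (n : ℕ) : PropStar (Pn n) ↔ n ≤ 9 := by
  constructor
  · intro h
    by_contra hcon
    exact neg (by omega) h
  · exact pos

end Pool.Agent.H74.PL
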