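import Pool.Agent.H74.PL.Def

/-! # [H74 PL MRG] upper covers in the partition lattice

PROOF. For `t ∈ x.parts.powersetCard 2` let `merge x t` have the parts `insert (t.sup id) (x.parts \ t)`. (1) `x < merge x t`. (2) If `x < y` some part of `y`
contains two different parts `B, C` of `x`, so `merge x {B, C} ≤ y`. (3) `x ⋖ merge x t`: if `x < y ≤ merge x t` then (2) gives `t'` with `merge x t' ≤ merge x t`; the parts of
`x` inside `t.sup id` are those of `t`, so `t' = t` and `y = merge x t`. (4) `x ⋖ y` iff `y = merge x t` for some `t`; `t` is unique (as in (3)). So the sum over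
the upper covers is a sum over `x.parts.powersetCard 2`; `tp (merge x t) = tp x - t.val.map card + {∑_(B∈t) |B|}`; use `Finset.map_val_val_powersetCard`, `Multiset.powersetCard_map`. -/

set_option autoImplicit false

namespace Pool.Agent.H74.PL

open Finset

/-- merge the parts `B` and `C` -/
private def mrg {n : ℕ} (x : Pn n) (B C : Finset (Fin n)) (hB : B ∈ x.parts) (hC : C ∈ x.parts) :
    Pn n :=
  Finpartition.ofExistsUnique (insert (B ∪ C) ((x.parts.erase B).erase C))
    (fun p _ => Finset.subset_univ p)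
    (by
      intro a _
      obtain ⟨p, ⟨hp, hap⟩, -⟩ := x.existsUnique_mem (Finset.mem_univ a)
      by_cases h : p = B ∨ p = C
      · refine ⟨B ∪ C, ⟨Finset.mem_insert_self _ _, ?_⟩, ?_⟩
        · rcases h with rfl | rfl
          · exact Finset.mem_union_left _ hap
          · exact Finset.mem_union_right _ hap
        · rintro q ⟨hq, haq⟩
          rcases Finset.mem_insert.1 hq with hq | hq
          · exact hq
          · obtain ⟨h1, h2⟩ := Finset.mem_erase.1 hq
            obtain ⟨h3, h4⟩ := Finset.mem_erase.1 h2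
            have := x.eq_of_mem_parts h4 hp haq hap
            rcases h with rfl | rfl
            · exact absurd this h3
            · exact absurd this h1
      · push Not at h
        refine ⟨p, ⟨Finset.mem_insert_of_mem (Finset.mem_erase.2 ⟨h.2,
          Finset.mem_erase.2 ⟨h.1, hp⟩⟩), hap⟩, ?_⟩
        rintro q ⟨hq, haq⟩
        rcases Finset.mem_insert.1 hq with hq | hq
        · subst hq
          rcases Finset.mem_union.1 haq with k | k
          · exact absurd (x.eq_of_mem_parts hp hB hap k) h.1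
          · exact absurd (x.eq_of_mem_parts hp hC hap k) h.2
        · exact x.eq_of_mem_parts (Finset.mem_erase.1 (Finset.mem_erase.1 hq).2).2 hp haq hap)
    (by
      intro h
      rcases Finset.mem_insert.1 h with h | h
      · have h1 : B = ∅ := by
          have := Finset.subset_union_left (s₁ := B) (s₂ := C)
          rw [← h] at this
          exact Finset.subset_empty.1 this
        exact (x.nonempty_of_mem_parts hB).ne_empty h1
      · exact (x.nonempty_of_mem_parts
          (Finset.mem_erase.1 (Finset.mem_erase.1 h).2).2).ne_empty rfl)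

private theorem mrg_parts {n : ℕ} {x : Pn n} {B C : Finset (Fin n)} (hB : B ∈ x.parts)
    (hC : C ∈ x.parts) : (mrg x B C hB hC).parts = insert (B ∪ C) ((x.parts.erase B).erase C) :=
  rfl

private theorem union_notMem {n : ℕ} {x : Pn n} {B C : Finset (Fin n)} (hB : B ∈ x.parts)
    (hC : C ∈ x.parts) (hne : B ≠ C) : B ∪ C ∉ x.parts := by
  intro h
  obtain ⟨a, ha⟩ := x.nonempty_of_mem_parts hB
  obtain ⟨c, hc⟩ := x.nonempty_of_mem_parts hC
  have h1 := x.eq_of_mem_parts h hB (Finset.mem_union_left _ ha) ha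
  have h2 := x.eq_of_mem_parts h hC (Finset.mem_union_right _ hc) hc
  exact hne (h1.symm.trans h2)

private theorem mrg_card {n : ℕ} {x : Pn n} {B C : Finset (Fin n)} (hB : B ∈ x.parts)
    (hC : C ∈ x.parts) (hne : B ≠ C) : #x.parts = #(mrg x B C hB hC).parts + 1 := by
  have hC' : C ∈ x.parts.erase B := Finset.mem_erase.2 ⟨hne.symm, hC⟩
  have h1 : B ∪ C ∉ (x.parts.erase B).erase C := fun h =>
    union_notMem hB hC hne (Finset.mem_erase.1 (Finset.mem_erase.1 h).2).2
  rw [mrg_parts, Finset.card_insert_of_notMem h1, Finset.card_erase_of_mem hC',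
    Finset.card_erase_of_mem hB]
  have h2 : 1 < #x.parts := Finset.one_lt_card.2 ⟨B, hB, C, hC, hne⟩
  omega

private theorem le_mrg {n : ℕ} {x : Pn n} {B C : Finset (Fin n)} (hB : B ∈ x.parts)
    (hC : C ∈ x.parts) : x ≤ mrg x B C hB hC := by
  intro b hb
  rw [mrg_parts]
  by_cases h1 : b = B
  · exact ⟨B ∪ C, Finset.mem_insert_self _ _, by rw [h1]; exact Finset.subset_union_left⟩
  · by_cases h2 : b = C
    · exact ⟨B ∪ C, Finset.mem_insert_self _ _, by rw [h2]; exact Finset.subset_union_right⟩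
    · exact ⟨b, Finset.mem_insert_of_mem (Finset.mem_erase.2 ⟨h2, Finset.mem_erase.2 ⟨h1, hb⟩⟩),
        le_rfl⟩

private theorem lt_mrg {n : ℕ} {x : Pn n} {B C : Finset (Fin n)} (hB : B ∈ x.parts)
    (hC : C ∈ x.parts) (hne : B ≠ C) : x < mrg x B C hB hC := by
  refine lt_of_le_of_ne (le_mrg hB hC) fun h => ?_
  have := mrg_card hB hC hne
  rw [← h] at this
  omega

/-- two parts of `x` inside one part of `y` -/
private theorem exists_two {n : ℕ} {x y : Pn n} (h : x < y) : ∃ B, ∃ hB : B ∈ x.parts, ∃ C,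
    ∃ hC : C ∈ x.parts, B ≠ C ∧ mrg x B C hB hC ≤ y := by
  by_contra hcon
  push Not at hcon
  apply h.not_ge
  intro D hD
  obtain ⟨a, ha⟩ := y.nonempty_of_mem_parts hD
  obtain ⟨B, ⟨hB, haB⟩, -⟩ := x.existsUnique_mem (Finset.mem_univ a)
  refine ⟨B, hB, ?_⟩
  have sub : ∀ {C : Finset (Fin n)} {c : Fin n}, C ∈ x.parts → c ∈ C → c ∈ D → C ⊆ D := by
    intro C c hC hc hcD
    obtain ⟨E, hE, hCE⟩ := h.le hC
    have := y.eq_of_mem_parts hE hD (hCE hc) hcD
    rw [← this]
    exact hCE
  intro c hc
  obtain ⟨C, ⟨hC, hcC⟩, -⟩ := x.existsUnique_mem (Finset.mem_univ c)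
  by_cases hBC : B = C
  · rw [hBC]; exact hcC
  · exfalso
    apply hcon B hB C hC hBC
    intro p hp
    rw [mrg_parts] at hp
    rcases Finset.mem_insert.1 hp with rfl | hp
    · exact ⟨D, hD, Finset.union_subset (sub hB haB ha) (sub hC hcC hc)⟩
    · exact h.le (Finset.mem_erase.1 (Finset.mem_erase.1 hp).2).2

private theorem card_lt {n : ℕ} {x y : Pn n} (h : x < y) : #y.parts < #x.parts := by
  obtain ⟨B, hB, C, hC, hne, hle⟩ := exists_two h
  have h1 := Finpartition.card_mono hle
  have h2 := mrg_card hB hC hne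
  omega

private theorem covBy_mrg {n : ℕ} {x : Pn n} {B C : Finset (Fin n)} (hB : B ∈ x.parts)
    (hC : C ∈ x.parts) (hne : B ≠ C) : x ⋖ mrg x B C hB hC := by
  refine ⟨lt_mrg hB hC hne, fun z h1 h2 => ?_⟩
  have h3 := card_lt h1
  have h4 := card_lt h2
  have h5 := mrg_card hB hC hne
  omega

private theorem exists_mrg {n : ℕ} {x y : Pn n} (h : x ⋖ y) : ∃ B, ∃ hB : B ∈ x.parts, ∃ C,
    ∃ hC : C ∈ x.parts, B ≠ C ∧ y = mrg x B C hB hC := by
  obtain ⟨B, hB, C, hC, hne, hle⟩ := exists_two h.lt
  refine ⟨B, hB, C, hC, hne, ?_⟩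
  rcases hle.eq_or_lt with k | k
  · exact k.symm
  · exact absurd k (h.2 (lt_mrg hB hC hne))

/-- a pair of parts in a form with two elements -/
private theorem pair_of {n : ℕ} {x : Pn n} {t : Finset (Finset (Fin n))}
    (ht : t ∈ x.parts.powersetCard 2) : ∃ B, ∃ _ : B ∈ x.parts, ∃ C, ∃ _ : C ∈ x.parts,
    B ≠ C ∧ t = {B, C} := by
  obtain ⟨h1, h2⟩ := Finset.mem_powersetCard.1 ht
  obtain ⟨B, C, hne, rfl⟩ := Finset.card_eq_two.1 h2
  exact ⟨B, h1 (by simp), C, h1 (by simp), hne, rfl⟩

private theorem sdiff_mrg {n : ℕ} {x : Pn n} {B C : Finset (Fin n)} (hB : B ∈ x.parts)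
    (hC : C ∈ x.parts) (hne : B ≠ C) : x.parts \ (mrg x B C hB hC).parts = {B, C} := by
  have h0 := union_notMem hB hC hne
  ext D
  rw [Finset.mem_sdiff, mrg_parts, Finset.mem_insert, Finset.mem_erase, Finset.mem_erase,
    Finset.mem_insert, Finset.mem_singleton]
  constructor
  · rintro ⟨h1, h2⟩
    by_contra hcon
    push Not at hcon
    exact h2 (Or.inr ⟨hcon.2, hcon.1, h1⟩)
  · rintro (rfl | rfl)
    · refine ⟨hB, ?_⟩
      rintro (h | ⟨-, h, -⟩)
      · exact h0 (h ▸ hB)
      · exact h rfl
    · refine ⟨hC, ?_⟩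
      rintro (h | ⟨h, -⟩)
      · exact h0 (h ▸ hC)
      · exact h rfl

private theorem tp_mrg {n : ℕ} {x : Pn n} {B C : Finset (Fin n)} (hB : B ∈ x.parts)
    (hC : C ∈ x.parts) (hne : B ≠ C) : tp (mrg x B C hB hC) =
    tp x - ({B, C} : Finset (Finset (Fin n))).val.map Finset.card +
      {(({B, C} : Finset (Finset (Fin n))).val.map Finset.card).sum} := by
  have hC' : C ∈ x.parts.erase B := Finset.mem_erase.2 ⟨hne.symm, hC⟩
  have h1 : B ∪ C ∉ (x.parts.erase B).erase C := fun h =>
    union_notMem hB hC hne (Finset.mem_erase.1 (Finset.mem_erase.1 h).2).2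
  have hd : Disjoint B C := x.disjoint hB hC hne
  have hv : ({B, C} : Finset (Finset (Fin n))).val = B ::ₘ {C} := by
    rw [Finset.insert_val_of_notMem (by simpa using hne)]
    rfl
  have e1 : x.parts.val = B ::ₘ C ::ₘ ((x.parts.erase B).erase C).val := by
    have k1 : ((x.parts.erase B).erase C).val = (x.parts.erase B).val.erase C :=
      Finset.erase_val _ _
    have k2 : (x.parts.erase B).val = x.parts.val.erase B := Finset.erase_val _ _
    rw [k1, Multiset.cons_erase (show C ∈ (x.parts.erase B).val from hC'), k2,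
      Multiset.cons_erase (show B ∈ x.parts.val from hB)]
  have e2 : tp x = (B.card ::ₘ {C.card}) + ((x.parts.erase B).erase C).val.map Finset.card := by
    unfold tp
    rw [e1]
    simp only [Multiset.map_cons, Multiset.cons_add, Multiset.singleton_add]
  unfold tp at e2 ⊢
  rw [mrg_parts, Finset.insert_val_of_notMem h1, hv, e2]
  simp only [Multiset.map_cons, Multiset.map_singleton, Multiset.sum_cons,
    Multiset.sum_singleton, Finset.card_union_of_disjoint hd]
  rw [add_tsub_cancel_left]
  exact (Multiset.singleton_add _ _).symm.trans (add_comm _ _)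

open Classical in
theorem up_sum {n : ℕ} (x : Pn n) (g : Multiset ℕ → ℝ) :
    ∑ y ∈ univ.filter (fun y : Pn n => x ⋖ y), g (tp y) = Up (tp x) g := by
  have hR : Up (tp x) g = ∑ t ∈ x.parts.powersetCard 2,
      g (tp x - t.val.map Finset.card + {(t.val.map Finset.card).sum}) := by
    unfold Up
    have e : Multiset.powersetCard 2 (tp x) =
        (x.parts.powersetCard 2).val.map (fun t => t.val.map Finset.card) := by
      have h1 := Finset.map_val_val_powersetCard x.parts 2
      unfold tp
      rw [Multiset.powersetCard_map, ← h1, Multiset.map_map]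
      rfl
    rw [e, Multiset.map_map]
    rfl
  rw [hR]
  choose! B hB C hC hne ht using fun (t : Finset (Finset (Fin n)))
    (h : t ∈ x.parts.powersetCard 2) => pair_of (x := x) h
  symm
  refine Finset.sum_bij (fun t h => mrg x (B t) (C t) (hB t h) (hC t h)) ?_ ?_ ?_ ?_
  · intro t h
    rw [Finset.mem_filter]
    exact ⟨Finset.mem_univ _, covBy_mrg _ _ (hne t h)⟩
  · intro t h t' h' he
    have h1 := sdiff_mrg (hB t h) (hC t h) (hne t h)
    have h2 := sdiff_mrg (hB t' h') (hC t' h') (hne t' h')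
    have he' : mrg x (B t) (C t) (hB t h) (hC t h) =
      mrg x (B t') (C t') (hB t' h') (hC t' h') := he
    rw [he'] at h1
    rw [ht t h, ht t' h', ← h1, ← h2]
  · intro y hy
    rw [Finset.mem_filter] at hy
    obtain ⟨B', hB', C', hC', hne', rfl⟩ := exists_mrg hy.2
    have hm : ({B', C'} : Finset (Finset (Fin n))) ∈ x.parts.powersetCard 2 := by
      rw [Finset.mem_powersetCard]
      refine ⟨?_, Finset.card_pair hne'⟩
      intro z hz
      rw [Finset.mem_insert, Finset.mem_singleton] at hz
      rcases hz with rfl | rfl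
      · exact hB'
      · exact hC'
    refine ⟨_, hm, ?_⟩
    have h1 := ht _ hm
    have key : ∀ (P Q : Finset (Fin n)) (hP : P ∈ x.parts) (hQ : Q ∈ x.parts),
        ({B', C'} : Finset (Finset (Fin n))) = {P, Q} → P ≠ Q →
        mrg x P Q hP hQ = mrg x B' C' hB' hC' := by
      intro P Q hP hQ hPQ hne2
      have a1 : P ∈ ({B', C'} : Finset (Finset (Fin n))) := by rw [hPQ]; simp
      have a2 : Q ∈ ({B', C'} : Finset (Finset (Fin n))) := by rw [hPQ]; simp
      rw [Finset.mem_insert, Finset.mem_singleton] at a1 a2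
      rcases a1 with rfl | rfl <;> rcases a2 with rfl | rfl
      · exact absurd rfl hne2
      · rfl
      · apply Finpartition.ext
        rw [mrg_parts, mrg_parts, Finset.union_comm, Finset.erase_right_comm]
      · exact absurd rfl hne2
    exact key _ _ _ _ h1 (hne _ hm)
  · intro t h
    have h1 := tp_mrg (hB t h) (hC t h) (hne t h)
    rw [h1, ← ht t h]

theorem card_of_covBy {n : ℕ} {x y : Pn n} (h : x ⋖ y) : #x.parts = #y.parts + 1 := by
  obtain ⟨B, hB, C, hC, hne, rfl⟩ := exists_mrg h
  exact mrg_card hB hC hne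

/-- if `x ⋖ y` then two parts `B ≠ C` of `x` are merged -/
theorem covBy_iff {n : ℕ} {x y : Pn n} : x ⋖ y ↔ ∃ B ∈ x.parts, ∃ C ∈ x.parts, B ≠ C ∧
    y.parts = insert (B ∪ C) ((x.parts.erase B).erase C) := by
  constructor
  · intro h
    obtain ⟨B, hB, C, hC, hne, rfl⟩ := exists_mrg h
    exact ⟨B, hB, C, hC, hne, rfl⟩
  · rintro ⟨B, hB, C, hC, hne, hy⟩
    have : y = mrg x B C hB hC := Finpartition.ext (by rw [hy, mrg_parts])
    rw [this]
    exact covBy_mrg hB hC hne

end Pool.Agent.H74.PL
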