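import Pool.Agent.H74.PL.Def

/-! # [H74 PL TYP] property (∗) from a certificate on types

PROOF. WLOG `L = 1` (replace `R` by `R/L`; `D` is linear on the values that occur by `hdn`). Let `κ s m = if s = m then 0 else R s m / D s (fun ν => R ν m)` (0 if the denominator is 0), so `0 ≤ κ ≤ 1` on the types that occur
(hR, h0) and `κ s m * D s (R · m) = R s m` for `m ≠ s`. Define `F : P → P → ℝ` by recursion on the rank: `Fr 0 x y = if x = y then R (τ x) (τ x) else 0`, `Fr (j+1) x y = if x = y then R (τ x) (τ x) else κ (τ x) (τ y) * ∑_(z ⋖ x) Fr j z y`,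
`F x y = Fr (r x) x y` (`z ⋖ x` has rank `r x - 1`; an element of rank 0 is minimal: `IsGradedBy.isMin`). Then `F x y = κ (τ x) (τ y) ∑_(z ⋖ x) F z y` for `y ≠ x` (for `x` minimal: both sides 0).
(a) By induction on the rank `∑_(y, τ y = m) F x y = R (τ x) m` for all `m ∈ T` (`∑_(z ⋖ x) R (τ z) m = D (τ x) (R · m)`; for `m = τ x` only `y = x` counts because `κ m m = 0`; for `x` minimal and `m ≠ τ x` hR gives `R (τ x) m ≤ 0`).
(b) So `∑_y F x y = ∑_(m ∈ T) R (τ x) m = dn x` (hrow, hT). (c) `F x y ≤ ∑_(z ⋖ x) F z y` for `y ≠ x`. (d) `K : P → ℝ` for a fixed `m`, with `K ⊤ = 1`, `K x = ∑_(x' ⋗ x) κ (τ x') m K x'` for `x ≠ ⊤` (recursion on `l - r x`), depends on `τ x` only: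
precisely, for `τ x = τ x'` of the same rank `K x = K x'` (hup: `K x = U (τ x) (fun ν => κ ν m * (value of K on ν))`, downward induction on the rank; `r` is a function of `τ`: see hrk). For `τ y = m` the sum `∑_(r x = j) F x y K x` does not depend on `j ≥ r y` (exchange the sums over `z ⋖ x'`; `F x' y = 0` unless `y ≤ x'`), so `F ⊤ y = F y y K y = R m m K y` depends on `τ y` only. (e) With (a) for `x = ⊤` and htop: `F ⊤ y = c` for all `y`. (f) `∑_y F ⊤ y = dn ⊤ = numMaxChains P`, so `c = numMaxChains P / card P`. Conclude with `Pool.Agent.H21.Hold.star_iff`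
(`dn x = numMaxChains (Set.Iic x)`: `Pool.Agent.H21.Hold.numMaxChains_Iic`; the only maximal element is `⊤`). -/

set_option autoImplicit false

namespace Pool.Agent.H74.PL

open Finset Pool.Agent.H37.Star

/-- solution of `F x y = R m m [x = y] + κ ∑_(z ⋖ x) F z y` -/
private theorem exists_F {P : Type} [PartialOrder P] [Fintype P] [DecidableEq P] [DecidableRel ((· ⋖ ·) : P → P → Prop)] (a : P → ℝ) (k : P → P → ℝ) :
    ∃ F : P → P → ℝ, ∀ x y, F x y = (if x = y then a y else 0) + k x y * ∑ z ∈ univ.filter (fun z => z ⋖ x), F z y := by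
  have hwf : WellFounded ((· < ·) : P → P → Prop) := wellFounded_lt
  let G : (x : P) → ((z : P) → z < x → P → ℝ) → P → ℝ := fun x ih y =>
    (if x = y then a y else 0) + k x y * ∑ z ∈ (univ.filter (fun z => z ⋖ x)).attach, ih z.1 (Finset.mem_filter.1 z.2).2.lt y
  refine ⟨hwf.fix G, fun x y => ?_⟩
  rw [hwf.fix_eq G x]
  show (if x = y then a y else 0) + k x y * ∑ z ∈ (univ.filter (fun z => z ⋖ x)).attach, hwf.fix G z.1 y = _
  rw [Finset.sum_attach (univ.filter (fun z => z ⋖ x)) (fun z => hwf.fix G z y)]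

private theorem exists_K {P : Type} [PartialOrder P] [Fintype P] [DecidableEq P] [DecidableRel ((· ⋖ ·) : P → P → Prop)] (a : P → ℝ) (k : P → ℝ) :
    ∃ K : P → ℝ, ∀ x, K x = a x + ∑ z ∈ univ.filter (fun z => x ⋖ z), k z * K z := by
  have hwf : WellFounded ((· > ·) : P → P → Prop) := wellFounded_gt
  let G : (x : P) → ((z : P) → z > x → ℝ) → ℝ := fun x ih =>
    a x + ∑ z ∈ (univ.filter (fun z => x ⋖ z)).attach, k z.1 * ih z.1 (Finset.mem_filter.1 z.2).2.lt
  refine ⟨hwf.fix G, fun x => ?_⟩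
  rw [hwf.fix_eq G x]
  show a x + ∑ z ∈ (univ.filter (fun z => x ⋖ z)).attach, k z.1 * hwf.fix G z.1 = _
  rw [Finset.sum_attach (univ.filter (fun z => x ⋖ z)) (fun z => k z * hwf.fix G z)]

/-- the two solutions are adjoint -/
private theorem adj {P : Type} [PartialOrder P] [Fintype P] [DecidableEq P] [DecidableRel ((· ⋖ ·) : P → P → Prop)] [OrderTop P]
    (κ : P → ℝ) (b : ℝ) (y : P) (f K : P → ℝ)
    (hf : ∀ x, f x = (if x = y then b else 0) + κ x * ∑ z ∈ univ.filter (fun z => z ⋖ x), f z)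
    (hK : ∀ x, K x = (if x = ⊤ then 1 else 0) + ∑ z ∈ univ.filter (fun z => x ⋖ z), κ z * K z) :
    f ⊤ = b * K y := by
  have h1 : ∑ x, K x * f x = b * K y + ∑ x, K x * (κ x * ∑ z ∈ univ.filter (fun z => z ⋖ x), f z) := by
    have : ∀ x, K x * f x = (if x = y then b * K y else 0) + K x * (κ x * ∑ z ∈ univ.filter (fun z => z ⋖ x), f z) := by
      intro x
      conv_lhs => rw [hf x]
      by_cases h : x = y
      · rw [if_pos h, if_pos h, h]; ring
      · rw [if_neg h, if_neg h]; ring
    rw [Finset.sum_congr rfl fun x _ => this x, Finset.sum_add_distrib, Finset.sum_ite_eq' univ y, if_pos (Finset.mem_univ _)]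
  have h2 : ∑ x, K x * f x = f ⊤ + ∑ x, (∑ z ∈ univ.filter (fun z => x ⋖ z), κ z * K z) * f x := by
    have : ∀ x, K x * f x = (if x = ⊤ then f ⊤ else 0) + (∑ z ∈ univ.filter (fun z => x ⋖ z), κ z * K z) * f x := by
      intro x
      conv_lhs => rw [hK x]
      by_cases h : x = ⊤
      · rw [if_pos h, if_pos h, h]; ring
      · rw [if_neg h, if_neg h]; ring
    rw [Finset.sum_congr rfl fun x _ => this x, Finset.sum_add_distrib, Finset.sum_ite_eq' univ ⊤, if_pos (Finset.mem_univ _)]
  have h3 : ∑ x, K x * (κ x * ∑ z ∈ univ.filter (fun z => z ⋖ x), f z) = ∑ x, (∑ z ∈ univ.filter (fun z => x ⋖ z), κ z * K z) * f x := by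
    have e1 : ∀ x, K x * (κ x * ∑ z ∈ univ.filter (fun z => z ⋖ x), f z) = ∑ z, if z ⋖ x then κ x * K x * f z else 0 := by
      intro x
      rw [Finset.sum_filter, Finset.mul_sum, Finset.mul_sum]
      refine Finset.sum_congr rfl fun z _ => ?_
      split_ifs <;> ring
    have e2 : ∀ x, (∑ z ∈ univ.filter (fun z => x ⋖ z), κ z * K z) * f x = ∑ z, if x ⋖ z then κ z * K z * f x else 0 := by
      intro x
      rw [Finset.sum_filter, Finset.sum_mul]
      refine Finset.sum_congr rfl fun z _ => ?_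
      split_ifs <;> ring
    rw [Finset.sum_congr rfl fun x _ => e1 x, Finset.sum_congr rfl fun x _ => e2 x, Finset.sum_comm]
  linarith

private theorem isMax_iff_top {P : Type} [PartialOrder P] [OrderTop P] (x : P) : IsMax x ↔ x = ⊤ := isMax_iff_eq_top

private theorem numMax_eq {P : Type} [PartialOrder P] [Fintype P] [OrderTop P] : numMaxChains P = dn (⊤ : P) := by
  classical
  have h := Pool.Agent.H21.Hold.sum_MC (P := P) (fun _ => (1 : ℝ))
  have e : Finset.univ.filter (fun x : P => IsMax x) = {⊤} := by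
    ext x
    simp [isMax_iff_eq_top]
  rw [e, Finset.sum_singleton, Finset.sum_const, Finset.sum_const, nsmul_eq_mul, nsmul_eq_mul, mul_one, mul_one,
    Pool.Agent.H21.Hold.card_MC, Pool.Agent.H21.Hold.card_L] at h
  exact_mod_cast h

open Classical in
/-- `D`, `U`: sums over lower and upper covers of functions of the type; `T` a finite set of types; `R` the certificate, scaled by `L`. -/
theorem star_of_types {P : Type} [PartialOrder P] [Fintype P] [OrderTop P] {r : P → ℕ} {l : ℕ} (hgr : IsGradedBy P r l)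
    {ι : Type} (τ : P → ι) (hrk : ∀ x y : P, τ x = τ y → r x = r y) (T : Finset ι) (hT : ∀ x : P, τ x ∈ T) (D U : ι → (ι → ℝ) → ℝ)
    (hdn : ∀ (x : P) (g : ι → ℝ), ∑ z ∈ univ.filter (fun z => z ⋖ x), g (τ z) = D (τ x) g)
    (hup : ∀ (x : P) (g : ι → ℝ), ∑ y ∈ univ.filter (fun y => x ⋖ y), g (τ y) = U (τ x) g)
    (R : ι → ι → ℝ) (h0 : ∀ x : P, ∀ m ∈ T, 0 ≤ R (τ x) m)
    (hR : ∀ x : P, ∀ m ∈ T, m ≠ τ x → R (τ x) m ≤ D (τ x) (fun ν => R ν m))
    (L : ℝ) (hL : 0 < L) (hrow : ∀ x : P, ∑ m ∈ T, R (τ x) m = L * (dn x : ℝ))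
    (c : ℝ) (htop : ∀ y : P, R (τ (⊤ : P)) (τ y) = c * #{x : P | τ x = τ y}) :
    PropStar P := by
  classical
  have : Nonempty P := ⟨⊤⟩
  -- the ratios
  set κ : ι → ι → ℝ := fun s m => if s = m then 0 else R s m / D s (fun ν => R ν m) with hκ
  have hDn : ∀ (x : P), ∀ m ∈ T, D (τ x) (fun ν => R ν m) = ∑ z ∈ univ.filter (fun z => z ⋖ x), R (τ z) m :=
    fun x m _ => (hdn x (fun ν => R ν m)).symm
  have hD0 : ∀ (x : P), ∀ m ∈ T, 0 ≤ D (τ x) (fun ν => R ν m) := by
    intro x m hm
    rw [hDn x m hm]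
    exact Finset.sum_nonneg fun z _ => h0 z m hm
  have hκ0 : ∀ x y : P, 0 ≤ κ (τ x) (τ y) := by
    intro x y
    simp only [hκ]
    split_ifs
    · exact le_rfl
    · exact div_nonneg (h0 x _ (hT y)) (hD0 x _ (hT y))
  have hκ1 : ∀ x y : P, κ (τ x) (τ y) ≤ 1 := by
    intro x y
    simp only [hκ]
    split_ifs with h
    · exact zero_le_one
    · exact div_le_one_of_le₀ (hR x _ (hT y) (fun h' => h h'.symm)) (hD0 x _ (hT y))
  have hκR : ∀ (x : P), ∀ m ∈ T, m ≠ τ x → κ (τ x) m * D (τ x) (fun ν => R ν m) = R (τ x) m := by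
    intro x m hm hne
    simp only [hκ]
    rw [if_neg (fun h => hne h.symm)]
    by_cases hz : D (τ x) (fun ν => R ν m) = 0
    · rw [hz, mul_zero]
      have h1 := hR x m hm hne
      rw [hz] at h1
      exact le_antisymm (h0 x m hm) h1
    · exact div_mul_cancel₀ _ hz
  obtain ⟨F, hF⟩ := exists_F (P := P) (fun y => R (τ y) (τ y)) (fun x y => κ (τ x) (τ y))
  have hF0 : ∀ x y, 0 ≤ F x y := by
    intro x y
    induction x using WellFoundedLT.induction with
    | ind x ih =>
    rw [hF x y]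
    refine add_nonneg ?_ (mul_nonneg (hκ0 x y) (Finset.sum_nonneg fun z hz => ih z (Finset.mem_filter.1 hz).2.lt))
    split_ifs
    · exact h0 y _ (hT y)
    · exact le_rfl
  -- (a)
  have ha : ∀ x, ∀ m ∈ T, ∑ y ∈ univ.filter (fun y => τ y = m), F x y = R (τ x) m := by
    intro x
    induction x using WellFoundedLT.induction with
    | ind x ih =>
    intro m hm
    have e1 : ∀ y ∈ univ.filter (fun y => τ y = m), F x y =
        (if x = y then R (τ y) (τ y) else 0) + κ (τ x) m * ∑ z ∈ univ.filter (fun z => z ⋖ x), F z y := by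
      intro y hy
      rw [hF x y, (Finset.mem_filter.1 hy).2]
    rw [Finset.sum_congr rfl e1, Finset.sum_add_distrib, ← Finset.mul_sum, Finset.sum_comm,
      Finset.sum_congr rfl (fun z hz => ih z (Finset.mem_filter.1 hz).2.lt m hm), ← hDn x m hm]
    by_cases hne : m = τ x
    · have hk : κ (τ x) m = 0 := by simp only [hκ]; rw [if_pos hne.symm]
      rw [hk, zero_mul, add_zero, Finset.sum_ite_eq,
        if_pos (show x ∈ univ.filter (fun y => τ y = m) from Finset.mem_filter.2 ⟨Finset.mem_univ _, hne.symm⟩), hne]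
    · rw [hκR x m hm hne, Finset.sum_ite_eq, if_neg, zero_add]
      intro h
      exact hne (Finset.mem_filter.1 h).2.symm
  -- (b)
  have hb : ∀ x, ∑ y, F x y = L * (dn x : ℝ) := by
    intro x
    rw [← hrow x, ← Finset.sum_fiberwise_of_maps_to (s := univ) (t := T) (g := τ) (fun y _ => hT y) (F x)]
    exact Finset.sum_congr rfl fun m hm => ha x m hm
  -- (c)
  have hc : ∀ x y, y ≠ x → F x y ≤ ∑ z ∈ univ.filter (fun z => z ⋖ x), F z y := by
    intro x y hyx
    rw [hF x y, if_neg (fun h => hyx h.symm), zero_add]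
    exact mul_le_of_le_one_left (Finset.sum_nonneg fun z _ => hF0 z y) (hκ1 x y)
  -- (d)
  have hd : ∀ y y' : P, τ y = τ y' → F ⊤ y = F ⊤ y' := by
    intro y y' hyy
    obtain ⟨K, hK⟩ := exists_K (P := P) (fun x => if x = ⊤ then 1 else 0) (fun z => κ (τ z) (τ y))
    have hy := adj (fun x => κ (τ x) (τ y)) (R (τ y) (τ y)) y (fun x => F x y) K (fun x => hF x y) hK
    have hy' := adj (fun x => κ (τ x) (τ y)) (R (τ y) (τ y)) y' (fun x => F x y') K (fun x => by
      have := hF x y'
      rw [← hyy] at this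
      exact this) hK
    have hKτ : ∀ n : ℕ, ∀ x x' : P, l - r x ≤ n → τ x = τ x' → K x = K x' := by
      intro n
      induction n with
      | zero =>
        intro x x' hx hxx
        have h1 : x = ⊤ := isMax_iff_eq_top.1 (hgr.isMax (le_antisymm (hgr.le_top x) (by omega)))
        have h2 : x' = ⊤ := isMax_iff_eq_top.1 (hgr.isMax (le_antisymm (hgr.le_top x') (by rw [← hrk x x' hxx]; omega)))
        rw [h1, h2]
      | succ n ih =>
        intro x x' hx hxx
        have hr := hrk x x' hxx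
        have htop' : (x = ⊤) ↔ (x' = ⊤) := by
          constructor
          · intro h
            have h1 : r x = l := hgr.max x (h ▸ isMax_top)
            exact isMax_iff_eq_top.1 (hgr.isMax (by rw [← hr, h1]))
          · intro h
            have h1 : r x' = l := hgr.max x' (h ▸ isMax_top)
            exact isMax_iff_eq_top.1 (hgr.isMax (by rw [hr, h1]))
        -- the function of the type
        let k : ι → ℝ := fun ν => if h : ∃ w : P, τ w = ν ∧ r w = r x + 1 then K h.choose else 0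
        have hk : ∀ w : P, r w = r x + 1 → K w = k (τ w) := by
          intro w hw
          have h : ∃ w' : P, τ w' = τ w ∧ r w' = r x + 1 := ⟨w, rfl, hw⟩
          have e : k (τ w) = K h.choose := by
            simp only [k]
            rw [dif_pos h]
          rw [e]
          exact ih w h.choose (by omega) h.choose_spec.1.symm
        have hs : ∀ w : P, r w = r x → ∑ z ∈ univ.filter (fun z => w ⋖ z), κ (τ z) (τ y) * K z = U (τ w) (fun ν => κ ν (τ y) * k ν) := by
          intro w hw
          rw [← hup w (fun ν => κ ν (τ y) * k ν)]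
          refine Finset.sum_congr rfl fun z hz => ?_
          rw [hk z (by rw [hgr.covBy w z (Finset.mem_filter.1 hz).2, hw])]
        rw [hK x, hK x', hs x rfl, hs x' hr.symm, hxx]
        by_cases h : x = ⊤
        · rw [if_pos h, if_pos (htop'.1 h)]
        · rw [if_neg h, if_neg (fun h' => h (htop'.2 h'))]
    have hy1 : F ⊤ y = R (τ y) (τ y) * K y := hy
    have hy2 : F ⊤ y' = R (τ y) (τ y) * K y' := hy'
    rw [hy1, hy2, hKτ _ y y' le_rfl hyy]
  -- (e)
  have he : ∀ y, F ⊤ y = c := by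
    intro y
    have h1 := ha ⊤ (τ y) (hT y)
    rw [htop y, Finset.sum_congr rfl (fun y' hy' => (hd y' y (Finset.mem_filter.1 hy').2)), Finset.sum_const, nsmul_eq_mul, mul_comm] at h1
    have h2 : ((univ.filter (fun y' : P => τ y' = τ y)).card : ℝ) ≠ 0 := by
      have : 0 < (univ.filter (fun y' : P => τ y' = τ y)).card := Finset.card_pos.2 ⟨y, Finset.mem_filter.2 ⟨Finset.mem_univ _, rfl⟩⟩
      exact_mod_cast this.ne'
    exact mul_right_cancel₀ h2 h1
  rw [Pool.Agent.H21.Hold.star_iff]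
  refine ⟨fun x y => F x y / L, fun x y => div_nonneg (hF0 x y) hL.le, fun x => ?_, fun x y hyx => ?_, fun y => ?_⟩
  · rw [← Finset.sum_div, hb x, Pool.Agent.H21.Hold.numMaxChains_Iic, mul_div_cancel_left₀ _ hL.ne']
  · have h1 := hc x y hyx
    have h2 := div_le_div_of_nonneg_right h1 hL.le
    rw [Finset.sum_div] at h2
    exact h2
  · have e : Finset.univ.filter (fun x : P => IsMax x) = {⊤} := by
      ext x
      simp [isMax_iff_eq_top]
    rw [e, Finset.sum_singleton]
    show F ⊤ y / L = _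
    rw [he y, numMax_eq]
    have h1 := hb ⊤
    rw [Finset.sum_congr rfl (fun y _ => he y), Finset.sum_const, nsmul_eq_mul, Finset.card_univ] at h1
    have h3 : (Fintype.card P : ℝ) ≠ 0 := by exact_mod_cast Fintype.card_ne_zero
    rw [div_eq_div_iff hL.ne' h3]
    linarith

end Pool.Agent.H74.PL
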