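import Pool.Agent.H74.PL.Brg
import Pool.Agent.H74.PL.Typ
import Pool.Agent.H74.PL.Cnt

/-! # [H74 PL POS] property (∗) from a checked certificate -/

set_option autoImplicit false

namespace Pool.Agent.H74.PL

open Finset Pool.Agent.H37.Star

theorem tp_sum {n : ℕ} (x : Pn n) : (tp x).sum = n := by
  have h := x.sum_card_parts
  rw [Finset.card_univ, Fintype.card_fin] at h
  exact h

theorem tp_pos {n : ℕ} (x : Pn n) : ∀ b ∈ tp x, 1 ≤ b := by
  intro b hb
  obtain ⟨B, hB, rfl⟩ := Multiset.mem_map.1 hb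
  exact Finset.card_pos.2 (x.nonempty_of_mem_parts hB)

theorem tp_card {n : ℕ} (x : Pn n) : (tp x).card = #x.parts := by
  simp [tp]

theorem good {n : ℕ} (hn : n ≤ 9) (x : Pn n) : Good (tp x) := ⟨tp_pos x, by rw [tp_sum]; exact hn⟩

/-- the code of a partition -/
def tc {n : ℕ} (x : Pn n) : ℕ := cd (tp x)

theorem card_of_tc {n : ℕ} (hn : n ≤ 9) {x y : Pn n} (h : tc x = tc y) : #x.parts = #y.parts := by
  rw [← tp_card, ← tp_card]
  have key : ∀ z : Pn n, (((tp z).card : ℕ) : ℝ) = ∑ b ∈ Finset.Icc 1 9, (dg (tc z) b : ℝ) := by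
    intro z
    have h1 := (good hn z).sum_map (fun _ => (1 : ℝ))
    simp only [Multiset.map_const', Multiset.sum_replicate, nsmul_eq_mul, mul_one] at h1
    rw [h1]
    refine Finset.sum_congr rfl fun b hb => ?_
    rw [tc, (good hn z).dg_eq hb]
  have := (key x).trans ((by rw [h] : ∑ b ∈ Finset.Icc 1 9, (dg (tc x) b : ℝ) = ∑ b ∈ Finset.Icc 1 9, (dg (tc y) b : ℝ)).trans (key y).symm)
  exact_mod_cast this

theorem sm_cast (l : List (ℕ × ℕ)) (g : ℕ → ℕ) : sm l (fun a => (g a : ℝ)) = (smN l g : ℝ) := by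
  induction l with
  | nil => simp [sm, smN]
  | cons p l ih =>
    rw [sm_cons, ih]
    simp [smN]

theorem tc_bot {n : ℕ} : tc (⊥ : Pn n) = n := by
  unfold tc tp cd
  rw [Finpartition.parts_bot]
  simp [Function.comp_def]

theorem tc_top {n : ℕ} (hn : 1 ≤ n) : tc (⊤ : Pn n) = 10 ^ (n - 1) := by
  have h1 : (⊤ : Pn n).parts = {univ} := by
    have h2 := Finpartition.parts_top_subset (univ : Finset (Fin n))
    have h3 : (⊤ : Pn n).parts.Nonempty := by
      refine Finpartition.parts_nonempty _ ?_
      intro h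
      have : (⟨0, hn⟩ : Fin n) ∈ (univ : Finset (Fin n)) := Finset.mem_univ _
      rw [h] at this
      simp at this
    exact (Finset.subset_singleton_iff.1 h2).resolve_left h3.ne_empty
  unfold tc tp cd
  rw [h1]
  simp

theorem beq_ite (a b : ℕ) : (bif Nat.beq a b then 1 else 0 : ℕ) = if a = b then 1 else 0 := by
  by_cases h : a = b
  · subst h
    simp
  · have : Nat.beq a b = false := by
      rw [← Bool.not_eq_true]
      intro h2
      exact h (Nat.eq_of_beq_eq_true h2)
    rw [this, if_neg h]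
    rfl

/-- indicator -/
def ind (a ν : ℕ) : ℝ := if ν = a then 1 else 0

theorem sm_ind (l : List (ℕ × ℕ)) (a : ℕ) :
    sm l (ind a) = (smN l (fun ν => bif Nat.beq ν a then 1 else 0) : ℝ) := by
  rw [← sm_cast]
  congr 1
  funext ν
  rw [beq_ite, ind]
  split_ifs <;> simp

open Classical in
theorem hdn {n : ℕ} (h9 : n ≤ 9) (x : Pn n) (g : ℕ → ℝ) :
    ∑ z ∈ univ.filter (fun z : Pn n => z ⋖ x), g (tc z) = sm (DnL (tc x)) g := by
  rw [tc, ← dn_code (good h9 x) g]
  exact dn_sum x (fun t => g (cd t))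

open Classical in
theorem hup {n : ℕ} (h9 : n ≤ 9) (x : Pn n) (g : ℕ → ℝ) :
    ∑ y ∈ univ.filter (fun y : Pn n => x ⋖ y), g (tc y) = sm (UpL (tc x)) g / 2 := by
  rw [tc, ← up_code (good h9 x) g]
  exact up_sum x (fun t => g (cd t))

open Classical in
/-- number of partitions with code `a` -/
noncomputable def Nc (n a : ℕ) : ℝ := (#{x : Pn n | tc x = a} : ℝ)

open Classical in
/-- double counting of covers -/
theorem double {n : ℕ} (h9 : n ≤ 9) (a m : ℕ) :
    Nc n m * sm (DnL m) (ind a) = Nc n a * (sm (UpL a) (ind m) / 2) := by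
  have h1 : Nc n m * sm (DnL m) (ind a) = ∑ y ∈ univ.filter (fun y : Pn n => tc y = m),
      ∑ z ∈ univ.filter (fun z : Pn n => z ⋖ y), ind a (tc z) := by
    rw [Finset.sum_congr rfl (fun y hy => by
      rw [hdn h9 y, (Finset.mem_filter.1 hy).2]), Finset.sum_const, nsmul_eq_mul]
    rfl
  have h2 : Nc n a * (sm (UpL a) (ind m) / 2) = ∑ z ∈ univ.filter (fun z : Pn n => tc z = a),
      ∑ y ∈ univ.filter (fun y : Pn n => z ⋖ y), ind m (tc y) := by
    rw [Finset.sum_congr rfl (fun y hy => by
      rw [hup h9 y, (Finset.mem_filter.1 hy).2]), Finset.sum_const, nsmul_eq_mul]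
    rfl
  rw [h1, h2]
  simp only [Finset.sum_filter]
  have h3 : ∀ y : Pn n, (if tc y = m then ∑ z : Pn n, (if z ⋖ y then ind a (tc z) else 0) else 0) =
      ∑ z : Pn n, (if z ⋖ y then ind a (tc z) * ind m (tc y) else 0) := by
    intro y
    by_cases hy : tc y = m
    · rw [if_pos hy]
      simp [ind, hy]
    · rw [if_neg hy]
      simp [ind, hy]
  have h4 : ∀ z : Pn n, (if tc z = a then ∑ y : Pn n, (if z ⋖ y then ind m (tc y) else 0) else 0) =
      ∑ y : Pn n, (if z ⋖ y then ind a (tc z) * ind m (tc y) else 0) := by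
    intro z
    by_cases hz : tc z = a
    · rw [if_pos hz]
      simp [ind, hz]
    · rw [if_neg hz]
      simp [ind, hz]
  rw [Finset.sum_congr rfl fun y _ => h3 y, Finset.sum_congr rfl fun z _ => h4 z, Finset.sum_comm]

open Classical in
/-- property (∗) from a certificate that passes the check -/
theorem star_of_chk {n : ℕ} (h1 : 1 ≤ n) (h9 : n ≤ 9) (tab : List (ℕ × List (ℕ × ℕ))) (cls pr : List (ℕ × ℕ))
    (hc : chk n tab cls pr = true) (hnd : (tab.map Prod.fst).Nodup)
    (hL : 0 < ((tab.map Prod.fst).map (Rf tab n)).sum) : PropStar (Pn n) := by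
  unfold chk at hc
  simp only [Bool.and_eq_true, List.all_eq_true, Bool.or_eq_true] at hc
  obtain ⟨⟨⟨⟨⟨⟨c1, c2⟩, c3⟩, c4⟩, c5⟩, c6⟩, c7⟩ := hc
  set T := tab.map Prod.fst with hTdef
  have hgr := graded h1
  have hrk : ∀ x y : Pn n, tc x = tc y → n - #x.parts = n - #y.parts := fun x y h => by
    rw [card_of_tc h9 h]
  have hmin : ∀ x : Pn n, tc x = n → IsMin x := by
    intro x hx
    refine hgr.isMin ?_
    rw [hrk x ⊥ (hx.trans tc_bot.symm)]
    exact hgr.min _ isMin_bot
  have hminbot : ∀ x : Pn n, IsMin x → x = ⊥ := fun x hx => hx.eq_bot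
  have hT : ∀ x : Pn n, tc x ∈ T := by
    intro x
    induction x using WellFoundedLT.induction with
    | ind x ih =>
      by_cases hx : IsMin x
      · rw [hminbot x hx, tc_bot]
        simpa using c1
      · obtain ⟨w, hw⟩ := not_isMin_iff.1 hx
        obtain ⟨z, -, hz⟩ := exists_le_covBy_of_lt hw
        have hzT := ih z hz.lt
        have h2 := hup h9 z (ind (tc x))
        have h3 : (1 : ℝ) ≤ ∑ y ∈ univ.filter (fun y : Pn n => z ⋖ y), ind (tc x) (tc y) := by
          have h4 : ind (tc x) (tc x) ≤ ∑ y ∈ univ.filter (fun y : Pn n => z ⋖ y), ind (tc x) (tc y) := by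
            refine Finset.single_le_sum (f := fun y => ind (tc x) (tc y)) (fun y _ => ?_)
              (Finset.mem_filter.2 ⟨Finset.mem_univ x, hz⟩)
            simp only [ind]
            split_ifs <;> norm_num
          rwa [ind, if_pos rfl] at h4
        rw [h2] at h3
        by_contra hcon
        have h5 : sm (UpL (tc z)) (ind (tc x)) = 0 := by
          unfold sm
          refine List.sum_eq_zero ?_
          intro v hv
          obtain ⟨p, hp, rfl⟩ := List.mem_map.1 hv
          rcases c3 _ hzT p hp with h6 | h6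
          · rw [Nat.eq_of_beq_eq_true h6]
            simp
          · have h7 : p.2 ∈ T := by simpa using h6
            have h8 : p.2 ≠ tc x := fun h => hcon (h ▸ h7)
            rw [ind, if_neg h8, mul_zero]
        rw [h5] at h3
        norm_num at h3
  have hrow : ∀ x : Pn n, (((T.map (Rf tab (tc x))).sum : ℕ) : ℝ) =
      (((T.map (Rf tab n)).sum : ℕ) : ℝ) * (dn x : ℝ) := by
    intro x
    induction x using WellFoundedLT.induction with
    | ind x ih =>
      by_cases hx : IsMin x
      · rw [dn_min hx, hminbot x hx, tc_bot]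
        simp
      · have h2 : tc x ≠ n := fun h => hx (hmin x h)
        have h3 := (c5 _ (hT x)).resolve_left (fun h => h2 (Nat.eq_of_beq_eq_true h))
        have h4 := Nat.eq_of_beq_eq_true h3
        rw [h4, ← sm_cast, ← hdn h9 x (fun a => (((T.map (Rf tab a)).sum : ℕ) : ℝ)), dn_rec hx]
        push_cast
        rw [Finset.mul_sum]
        refine Finset.sum_congr rfl fun z hz => ?_
        have := ih z (Finset.mem_filter.1 hz).2.lt
        push_cast at this
        exact this
  have hcls : ∀ y : Pn n, Nc n (tc y) = (look cls (tc y) : ℝ) := by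
    intro y
    induction y using WellFoundedLT.induction with
    | ind y ih =>
      by_cases hy : IsMin y
      · rw [hminbot y hy, tc_bot, Nat.eq_of_beq_eq_true c2]
        have h2 : (univ.filter fun x : Pn n => tc x = n) = {⊥} := by
          ext x
          rw [Finset.mem_filter, Finset.mem_singleton]
          exact ⟨fun h => hminbot x (hmin x h.2), fun h => ⟨Finset.mem_univ _, by rw [h, tc_bot]⟩⟩
        rw [Nc, h2]
        simp
      · have h2 : tc y ≠ n := fun h => hy (hmin y h)
        have h3 := (c6 _ (hT y)).resolve_left (fun h => h2 (Nat.eq_of_beq_eq_true h))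
        obtain ⟨h4, h5⟩ := h3
        set a := look pr (tc y) with ha
        have h6 := Nat.eq_of_beq_eq_true h5
        have h7 : (0 : ℝ) < sm (DnL (tc y)) (ind a) := by
          rw [sm_ind]
          have : 0 < smN (DnL (tc y)) (fun ν => bif Nat.beq ν a then 1 else 0) :=
            Nat.le_of_ble_eq_true h4
          exact_mod_cast this
        have h8 : ∃ z : Pn n, z ⋖ y ∧ tc z = a := by
          by_contra hcon
          push Not at hcon
          rw [← hdn h9 y] at h7
          refine h7.ne' (Finset.sum_eq_zero fun z hz => ?_)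
          rw [ind, if_neg (hcon z (Finset.mem_filter.1 hz).2)]
        obtain ⟨z, hz, hza⟩ := h8
        have h9' := ih z hz.lt
        rw [hza] at h9'
        have h10 := double h9 (n := n) a (tc y)
        rw [h9'] at h10
        have h11 : 2 * ((look cls (tc y) : ℝ) * sm (DnL (tc y)) (ind a)) =
            (look cls a : ℝ) * sm (UpL a) (ind (tc y)) := by
          rw [sm_ind, sm_ind]
          exact_mod_cast h6
        have h12 : Nc n (tc y) * sm (DnL (tc y)) (ind a) = (look cls (tc y) : ℝ) * sm (DnL (tc y)) (ind a) := by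
          rw [h10]
          linarith
        exact mul_right_cancel₀ h7.ne' h12
  refine star_of_types hgr tc hrk T.toFinset (fun x => List.mem_toFinset.2 (hT x))
    (fun a g => sm (DnL a) g) (fun a g => sm (UpL a) g / 2) (fun x g => hdn h9 x g) (fun x g => hup h9 x g)
    (fun a m => (Rf tab a m : ℝ)) (fun x m _ => Nat.cast_nonneg _) ?_
    ((((T.map (Rf tab n)).sum : ℕ) : ℝ)) (by exact_mod_cast hL) ?_
    (Rf tab (10 ^ (n - 1)) (10 ^ (n - 1)) : ℝ) ?_
  · intro x m hm hne
    have h2 := (c4 _ (hT x) m (List.mem_toFinset.1 hm)).resolve_left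
      (fun h => hne (Nat.eq_of_beq_eq_true h))
    have h3 := Nat.le_of_ble_eq_true h2
    rw [sm_cast]
    exact_mod_cast h3
  · intro x
    rw [List.sum_toFinset _ hnd, ← hrow x, Nat.cast_list_sum]
    exact congrArg List.sum (List.map_map).symm
  · intro y
    have h2 := Nat.eq_of_beq_eq_true (c7 _ (hT y))
    rw [tc_top h1]
    have h3 := hcls y
    have h4 : (Rf tab (10 ^ (n - 1)) (tc y) : ℝ) =
        (Rf tab (10 ^ (n - 1)) (10 ^ (n - 1)) : ℝ) * (look cls (tc y) : ℝ) := by exact_mod_cast h2
    rw [h4, ← h3, Nc]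
    congr!

end Pool.Agent.H74.PL
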