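import Pool.Agent.H74.PL.Mrg

/-! # [H74 PL SPL] lower covers in the partition lattice (module by helper5)

PROOF. By `covBy_iff` (module Mrg, being proved by its owner; do not wait for it) `z ⋖ x` iff `x.parts = insert (S ∪ T) ((z.parts.erase S).erase T)` for two different parts `S, T` of `z`.
So with `B = S ∪ T ∈ x.parts`: `z.parts = insert S (insert (B \ S) (x.parts.erase B))`, `∅ ≠ S ⊂ B`, and `{S, T}` is unordered: choose `S` = the half which does NOT contain the
least element `a_B` of `B`. Bijection: pairs `(B, S)`, `B ∈ x.parts`, `S ⊆ B.erase a_B`, `S ≠ ∅`, to lower covers. `tp z = (tp x).erase |B| + {|S|, |B| - |S|}`.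
For one `B` the number of `S` with `|S| = j + 1` is `(|B|-1).choose (j+1)`: `Finset.sum_powerset_apply_card`. -/

set_option autoImplicit false

namespace Pool.Agent.H74.PL

open Finset

/-- two parts with a common element are equal -/
private lemma part_eq {n : ℕ} (x : Pn n) {B C : Finset (Fin n)} (hB : B ∈ x.parts) (hC : C ∈ x.parts) {a : Fin n}
    (h1 : a ∈ B) (h2 : a ∈ C) : B = C := by
  by_contra hne
  have hd : Disjoint B C := x.disjoint hB hC hne
  exact (Finset.disjoint_left.1 hd h1) h2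

/-- the partition with the part `B` split in `S` and `B \ S` -/
private def spl {n : ℕ} (x : Pn n) (B S : Finset (Fin n)) (hB : B ∈ x.parts) (hS : S ⊆ B) (h0 : S.Nonempty)
    (h1 : (B \ S).Nonempty) : Pn n :=
  Finpartition.ofExistsUnique (insert S (insert (B \ S) (x.parts.erase B)))
    (fun p _ => subset_univ p)
    (fun a _ => by
      obtain ⟨t, ⟨ht, hat⟩, hu⟩ := x.existsUnique_mem (mem_univ a)
      by_cases htB : t = B
      · subst htB
        by_cases haS : a ∈ S
        · refine ⟨S, ⟨mem_insert_self _ _, haS⟩, ?_⟩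
          rintro p ⟨hp, hap⟩
          rw [mem_insert, mem_insert, mem_erase] at hp
          rcases hp with rfl | rfl | ⟨hp1, hp2⟩
          · rfl
          · exact absurd haS (mem_sdiff.1 hap).2
          · exact absurd (hu p ⟨hp2, hap⟩) hp1
        · refine ⟨t \ S, ⟨mem_insert_of_mem (mem_insert_self _ _), mem_sdiff.2 ⟨hat, haS⟩⟩, ?_⟩
          rintro p ⟨hp, hap⟩
          rw [mem_insert, mem_insert, mem_erase] at hp
          rcases hp with rfl | rfl | ⟨hp1, hp2⟩
          · exact absurd hap haS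
          · rfl
          · exact absurd (hu p ⟨hp2, hap⟩) hp1
      · refine ⟨t, ⟨mem_insert_of_mem (mem_insert_of_mem (mem_erase.2 ⟨htB, ht⟩)), hat⟩, ?_⟩
        rintro p ⟨hp, hap⟩
        rw [mem_insert, mem_insert, mem_erase] at hp
        rcases hp with rfl | rfl | ⟨hp1, hp2⟩
        · exact absurd (hu B ⟨hB, hS hap⟩).symm htB
        · exact absurd (hu B ⟨hB, (mem_sdiff.1 hap).1⟩).symm htB
        · exact hu p ⟨hp2, hap⟩)
    (by
      intro h
      rw [mem_insert, mem_insert, mem_erase] at h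
      rcases h with h | h | ⟨-, h⟩
      · exact h0.ne_empty h.symm
      · exact h1.ne_empty h.symm
      · exact x.bot_notMem h)

private lemma spl_parts {n : ℕ} (x : Pn n) (B S : Finset (Fin n)) (hB : B ∈ x.parts) (hS : S ⊆ B) (h0 : S.Nonempty)
    (h1 : (B \ S).Nonempty) : (spl x B S hB hS h0 h1).parts = insert S (insert (B \ S) (x.parts.erase B)) := rfl

private lemma S_notMem {n : ℕ} (x : Pn n) {B S : Finset (Fin n)} (hB : B ∈ x.parts) (hS : S ⊆ B) (h0 : S.Nonempty)
    (h1 : (B \ S).Nonempty) : S ∉ x.parts := by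
  intro h
  obtain ⟨a, ha⟩ := h0
  have e := part_eq x h hB ha (hS ha)
  rw [e, sdiff_self] at h1
  exact h1.ne_empty rfl

private lemma T_notMem {n : ℕ} (x : Pn n) {B S : Finset (Fin n)} (hB : B ∈ x.parts) (hS : S ⊆ B) (h0 : S.Nonempty)
    (h1 : (B \ S).Nonempty) : B \ S ∉ x.parts := by
  intro h
  obtain ⟨a, ha⟩ := h1
  have e := part_eq x h hB ha (mem_sdiff.1 ha).1
  obtain ⟨b, hb⟩ := h0
  have : b ∈ B \ S := by
    rw [e]
    exact hS hb
  exact (mem_sdiff.1 this).2 hb

private lemma ne_ST {n : ℕ} {B S : Finset (Fin n)} (h0 : S.Nonempty) : S ≠ B \ S := by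
  intro h
  obtain ⟨a, ha⟩ := h0
  have h2 := ha
  rw [h] at h2
  exact (mem_sdiff.1 h2).2 ha

private lemma spl_cov {n : ℕ} (x : Pn n) (B S : Finset (Fin n)) (hB : B ∈ x.parts) (hS : S ⊆ B) (h0 : S.Nonempty)
    (h1 : (B \ S).Nonempty) : spl x B S hB hS h0 h1 ⋖ x := by
  rw [covBy_iff]
  have hST : S ≠ B \ S := ne_ST h0
  have hSn := S_notMem x hB hS h0 h1
  have hTn := T_notMem x hB hS h0 h1
  have hT' : B \ S ∉ x.parts.erase B := fun h => hTn (mem_of_mem_erase h)
  have hS' : S ∉ insert (B \ S) (x.parts.erase B) := by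
    rw [mem_insert, not_or]
    exact ⟨hST, fun h => hSn (mem_of_mem_erase h)⟩
  refine ⟨S, ?_, B \ S, ?_, hST, ?_⟩
  · rw [spl_parts]
    exact mem_insert_self _ _
  · rw [spl_parts]
    exact mem_insert_of_mem (mem_insert_self _ _)
  · rw [spl_parts, erase_insert hS', erase_insert hT', union_sdiff_of_subset hS, insert_erase hB]

/-- the new parts -/
private lemma spl_new {n : ℕ} (x : Pn n) (B S : Finset (Fin n)) (hB : B ∈ x.parts) (hS : S ⊆ B) (h0 : S.Nonempty)
    (h1 : (B \ S).Nonempty) : (spl x B S hB hS h0 h1).parts \ x.parts = {S, B \ S} := by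
  have hSn := S_notMem x hB hS h0 h1
  have hTn := T_notMem x hB hS h0 h1
  ext C
  rw [spl_parts, mem_sdiff, mem_insert, mem_insert, mem_erase, mem_insert, mem_singleton]
  constructor
  · rintro ⟨h | h | ⟨-, h⟩, h2⟩
    · exact Or.inl h
    · exact Or.inr h
    · exact absurd h h2
  · rintro (rfl | rfl)
    · exact ⟨Or.inl rfl, hSn⟩
    · exact ⟨Or.inr (Or.inl rfl), hTn⟩

private lemma spl_tp {n : ℕ} (x : Pn n) (B S : Finset (Fin n)) (hB : B ∈ x.parts) (hS : S ⊆ B) (h0 : S.Nonempty)
    (h1 : (B \ S).Nonempty) :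
    tp (spl x B S hB hS h0 h1) = (tp x).erase #B + {#S, #B - #S} := by
  have hST : S ≠ B \ S := ne_ST h0
  have hSn := S_notMem x hB hS h0 h1
  have hTn := T_notMem x hB hS h0 h1
  have hT' : B \ S ∉ x.parts.erase B := fun h => hTn (mem_of_mem_erase h)
  have hS' : S ∉ insert (B \ S) (x.parts.erase B) := by
    rw [mem_insert, not_or]
    exact ⟨hST, fun h => hSn (mem_of_mem_erase h)⟩
  unfold tp
  rw [spl_parts, insert_val_of_notMem hS', insert_val_of_notMem hT', Multiset.map_cons, Multiset.map_cons, erase_val,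
    Multiset.map_erase_of_mem _ _ hB, card_sdiff_of_subset hS]
  rw [Multiset.insert_eq_cons, add_comm, Multiset.cons_add, Multiset.singleton_add]

/-- the index set of one part -/
private def Q {n : ℕ} (B : Finset (Fin n)) : Finset (Finset (Fin n)) :=
  B.powerset.filter fun S => S.Nonempty ∧ ∃ a ∈ B \ S, ∀ b ∈ B, a ≤ b

private lemma Q_eq {n : ℕ} (B : Finset (Fin n)) (h : B.Nonempty) :
    Q B = (B.erase (B.min' h)).powerset.erase ∅ := by
  ext S
  unfold Q
  rw [mem_filter, mem_powerset, mem_erase, mem_powerset]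
  constructor
  · rintro ⟨h1, h2, a, ha, hb⟩
    refine ⟨h2.ne_empty, fun c hc => ?_⟩
    rw [mem_erase]
    refine ⟨?_, h1 hc⟩
    rintro rfl
    have e : B.min' h = a := le_antisymm (B.min'_le a (mem_sdiff.1 ha).1) (hb _ (B.min'_mem h))
    rw [e] at hc
    exact (mem_sdiff.1 ha).2 hc
  · rintro ⟨h1, h2⟩
    refine ⟨fun c hc => (mem_erase.1 (h2 hc)).2, nonempty_iff_ne_empty.2 h1, B.min' h, ?_, fun b hb => B.min'_le b hb⟩
    rw [mem_sdiff]
    exact ⟨B.min'_mem h, fun hc => (mem_erase.1 (h2 hc)).1 rfl⟩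

private lemma Q_sum {n : ℕ} (B : Finset (Fin n)) (h : B.Nonempty) (f : ℕ → ℝ) :
    ∑ S ∈ Q B, f #S = ∑ j ∈ range (#B - 1), ((#B - 1).choose (j + 1) : ℝ) * f (j + 1) := by
  rw [Q_eq B h]
  have h1 := Finset.sum_powerset_apply_card f (x := B.erase (B.min' h))
  have h2 : #(B.erase (B.min' h)) = #B - 1 := card_erase_of_mem (B.min'_mem h)
  rw [h2, sum_range_succ'] at h1
  have h3 : ∑ S ∈ (B.erase (B.min' h)).powerset.erase ∅, f #S + f #(∅ : Finset (Fin n)) =
      ∑ S ∈ (B.erase (B.min' h)).powerset, f #S := sum_erase_add _ _ (empty_mem_powerset _)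
  rw [← h3] at h1
  simp only [card_empty, Nat.choose_zero_right, one_smul] at h1
  have h4 := add_right_cancel h1
  rw [h4]
  exact sum_congr rfl fun j _ => by rw [nsmul_eq_mul]

open Classical in
theorem dn_sum {n : ℕ} (x : Pn n) (g : Multiset ℕ → ℝ) :
    ∑ z ∈ univ.filter (fun z : Pn n => z ⋖ x), g (tp z) = Dn (tp x) g := by
  have hne : ∀ B ∈ x.parts, B.Nonempty := fun B hB => x.nonempty_of_mem_parts hB
  have key : ∑ z ∈ univ.filter (fun z : Pn n => z ⋖ x), g (tp z) =
      ∑ B ∈ x.parts, ∑ S ∈ Q B, g ((tp x).erase #B + {#S, #B - #S}) := by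
    rw [sum_sigma']
    symm
    have hq : ∀ p : (_ : Finset (Fin n)) × Finset (Fin n), p ∈ x.parts.sigma (fun B => Q B) →
        p.1 ∈ x.parts ∧ p.2 ⊆ p.1 ∧ p.2.Nonempty ∧ (p.1 \ p.2).Nonempty := by
      rintro ⟨B, S⟩ hp
      rw [mem_sigma] at hp
      obtain ⟨hB, hS⟩ := hp
      unfold Q at hS
      rw [mem_filter, mem_powerset] at hS
      obtain ⟨h1, h2, a, ha, -⟩ := hS
      exact ⟨hB, h1, h2, ⟨a, ha⟩⟩
    refine sum_bij (fun p hp => spl x p.1 p.2 (hq p hp).1 (hq p hp).2.1 (hq p hp).2.2.1 (hq p hp).2.2.2) ?_ ?_ ?_ ?_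
    · intro p hp
      rw [mem_filter]
      exact ⟨mem_univ _, spl_cov _ _ _ _ _ _ _⟩
    · intro p hp p' hp' he
      have e1 := spl_new x p.1 p.2 (hq p hp).1 (hq p hp).2.1 (hq p hp).2.2.1 (hq p hp).2.2.2
      have e2 := spl_new x p'.1 p'.2 (hq p' hp').1 (hq p' hp').2.1 (hq p' hp').2.2.1 (hq p' hp').2.2.2
      rw [he, e2] at e1
      have hs1 := (hq p hp).2.1
      have hs2 := (hq p' hp').2.1
      have hB : p.1 = p'.1 := by
        have u1 : p.1 = ({p.2, p.1 \ p.2} : Finset (Finset (Fin n))).sup id := by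
          rw [sup_insert, sup_singleton, id, id]
          exact (union_sdiff_of_subset hs1).symm
        have u2 : p'.1 = ({p'.2, p'.1 \ p'.2} : Finset (Finset (Fin n))).sup id := by
          rw [sup_insert, sup_singleton, id, id]
          exact (union_sdiff_of_subset hs2).symm
        rw [u1, u2, e1]
      have hm : p.2 ∈ ({p'.2, p'.1 \ p'.2} : Finset (Finset (Fin n))) := by
        rw [e1]
        exact mem_insert_self _ _
      rw [mem_insert, mem_singleton] at hm
      have hS : p.2 = p'.2 := by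
        rcases hm with hm | hm
        · exact hm
        · exfalso
          rw [mem_sigma] at hp hp'
          have g1 := hp.2
          have g2 := hp'.2
          unfold Q at g1 g2
          rw [mem_filter] at g1 g2
          obtain ⟨-, -, a, ha, hb⟩ := g1
          obtain ⟨-, -, a', ha', hb'⟩ := g2
          rw [mem_sdiff] at ha ha'
          have e : a = a' := le_antisymm (hb _ (by rw [hB]; exact ha'.1)) (hb' _ (by rw [← hB]; exact ha.1))
          refine ha.2 ?_
          rw [hm, mem_sdiff, e]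
          exact ha'
      obtain ⟨B, S⟩ := p
      obtain ⟨B', S'⟩ := p'
      dsimp only at hB hS
      rw [hB, hS]
    · intro z hz
      rw [mem_filter, covBy_iff] at hz
      obtain ⟨-, S₀, hS₀, T₀, hT₀, hne0, hx⟩ := hz
      have hS0 := z.nonempty_of_mem_parts hS₀
      have hT0 := z.nonempty_of_mem_parts hT₀
      -- a general statement for an ordered pair
      have main : ∀ S ∈ z.parts, ∀ T ∈ z.parts, S ≠ T → x.parts = insert (S ∪ T) ((z.parts.erase S).erase T) →
          (∃ a ∈ T, ∀ b ∈ S ∪ T, a ≤ b) →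
          ∃ p, ∃ hp : p ∈ x.parts.sigma (fun B => Q B),
            spl x p.1 p.2 (hq p hp).1 (hq p hp).2.1 (hq p hp).2.2.1 (hq p hp).2.2.2 = z := by
        intro S hS T hT hST hxp ha
        obtain ⟨a, haT, hab⟩ := ha
        have hSn := z.nonempty_of_mem_parts hS
        have hTn := z.nonempty_of_mem_parts hT
        have hdj : Disjoint S T := z.disjoint hS hT hST
        have hBx : S ∪ T ∈ x.parts := by
          rw [hxp]
          exact mem_insert_self _ _
        have hdiff : (S ∪ T) \ S = T := by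
          rw [union_sdiff_left]
          exact sdiff_eq_self_of_disjoint hdj.symm
        have hp : (⟨S ∪ T, S⟩ : (_ : Finset (Fin n)) × Finset (Fin n)) ∈ x.parts.sigma (fun B => Q B) := by
          rw [mem_sigma]
          refine ⟨hBx, ?_⟩
          unfold Q
          rw [mem_filter, mem_powerset]
          refine ⟨subset_union_left, hSn, a, ?_, hab⟩
          dsimp only
          rw [hdiff]
          exact haT
        refine ⟨_, hp, ?_⟩
        apply Finpartition.ext
        rw [spl_parts]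
        dsimp only
        rw [hdiff, hxp]
        have hBn : S ∪ T ∉ (z.parts.erase S).erase T := by
          intro h
          have h2 : S ∪ T ∈ z.parts := mem_of_mem_erase (mem_of_mem_erase h)
          obtain ⟨b, hb⟩ := hSn
          have h3 := part_eq z h2 hS (mem_union_left _ hb) hb
          rw [h3] at h
          exact notMem_erase S z.parts (mem_of_mem_erase h)
        rw [erase_insert hBn]
        have hT' : T ∈ z.parts.erase S := mem_erase.2 ⟨hST.symm, hT⟩
        rw [insert_erase hT', insert_erase hS]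
      have hun : (S₀ ∪ T₀).Nonempty := hS0.mono subset_union_left
      have hmin := (S₀ ∪ T₀).min'_mem hun
      rw [mem_union] at hmin
      rcases hmin with hmin | hmin
      · obtain ⟨p, hp, he⟩ := main T₀ hT₀ S₀ hS₀ hne0.symm (by rw [hx, union_comm, erase_right_comm])
          ⟨_, hmin, fun b hb => (S₀ ∪ T₀).min'_le b (by rw [union_comm]; exact hb)⟩
        exact ⟨p, hp, he⟩
      · obtain ⟨p, hp, he⟩ := main S₀ hS₀ T₀ hT₀ hne0 hx ⟨_, hmin, fun b hb => (S₀ ∪ T₀).min'_le b hb⟩
        exact ⟨p, hp, he⟩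
    · intro p hp
      rw [spl_tp]
  rw [key]
  unfold Dn
  have e0 : tp x = x.parts.val.map Finset.card := rfl
  have e1 : ((tp x).map (fun b => ∑ j ∈ range (b - 1), ((b - 1).choose (j + 1) : ℝ) *
      g ((tp x).erase b + {j + 1, b - (j + 1)}))).sum =
      ∑ B ∈ x.parts, ∑ j ∈ range (#B - 1), ((#B - 1).choose (j + 1) : ℝ) *
      g ((tp x).erase #B + {j + 1, #B - (j + 1)}) := by
    have e2 : ∀ F : ℕ → ℝ, (Multiset.map F (tp x)).sum = ∑ B ∈ x.parts, F #B := by
      intro F
      rw [e0, Multiset.map_map]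
      rfl
    exact e2 _
  rw [e1]
  refine sum_congr rfl fun B hB => ?_
  exact Q_sum B (hne B hB) (fun m => g ((tp x).erase #B + {m, #B - m}))

end Pool.Agent.H74.PL
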